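import Pool.Agent.Lib.HyC.Defs

/-!
# HyC, row Cy1: a permutation whose powers with a fixed point are trivial is conjugate to a power of the rotation (only Mathlib)

PROOF IN WORDS. If `g = 1` take `r = 0`. Otherwise let `L = orderOf g > 1`. Every cycle of `g` has length `L`: for a
cycle of length `c` through `x` one has `(g ^ c) x = x`, so `g ^ c = 1` and `L ∣ c`, and `c ≤ L`; no point
is fixed by `g` (else `g ^ 1 = 1`). So `g.cycleType = Multiset.replicate (n / L) L`
(`Equiv.Perm.mem_cycleType_iff`, `Equiv.Perm.sum_cycleType`, `support = univ`), `L ∣ n`. The power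
`(finRotate n) ^ (n / L)` has the same property (a power of it with a fixed point is `1`, it has order
`L`; `finRotate` is a cycle with full support for `n ≥ 2`, `isCycle_finRotate_of_le`,
`support_finRotate_of_le`, `Equiv.Perm.IsCycle.pow_eq_one_iff`), so the same cycle type, and
`Equiv.Perm.isConj_iff_cycleType_eq` gives the conjugation (`isConj_iff`).
-/

set_option autoImplicit false

namespace Pool.Agent.Lib.HyC

open Pool.Agent.Lib.HyS Finset

variable {n m : ℕ}

private theorem cy1_type (g : Equiv.Perm (Fin n))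
    (hg : ∀ (k : ℕ) (x : Fin n), (g ^ k) x = x → g ^ k = 1) (h1 : g ≠ 1) :
    orderOf g ∣ n ∧ g.cycleType = Multiset.replicate (n / orderOf g) (orderOf g) := by
  have hL : ∀ l ∈ g.cycleType, l = orderOf g := by
    intro l hl
    apply Nat.dvd_antisymm (Equiv.Perm.dvd_of_mem_cycleType hl)
    obtain ⟨c, τ, hgc, hd, hc, hcard⟩ := Equiv.Perm.mem_cycleType_iff.1 hl
    have hc' := hc
    obtain ⟨x, hx, -⟩ := hc
    have hτ : τ x = x := by
      rcases hd x with h | h
      · exact absurd h hx
      · exact h
    have hcl : c ^ l = 1 := by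
      rw [← hcard, ← hc'.orderOf]
      exact pow_orderOf_eq_one c
    have hτl : (τ ^ l) x = x := Equiv.Perm.pow_apply_eq_self_of_apply_eq_self hτ l
    have : (g ^ l) x = x := by
      rw [hgc, hd.commute.mul_pow, Equiv.Perm.mul_apply, hτl, hcl, Equiv.Perm.one_apply]
    exact orderOf_dvd_of_pow_eq_one (hg l x this)
  have hrep : g.cycleType = Multiset.replicate (Multiset.card g.cycleType) (orderOf g) :=
    Multiset.eq_replicate.2 ⟨rfl, hL⟩
  have hsupp : g.support = univ := by
    apply Finset.eq_univ_of_forall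
    intro x
    rw [Equiv.Perm.mem_support]
    intro hx
    apply h1
    have := hg 1 x (by rw [pow_one]; exact hx)
    rwa [pow_one] at this
  have hsum : Multiset.card g.cycleType * orderOf g = n := by
    have h2 := Equiv.Perm.sum_cycleType g
    rw [hrep, Multiset.sum_replicate, hsupp, Finset.card_univ, Fintype.card_fin, smul_eq_mul] at h2
    exact h2
  have hpos : 0 < orderOf g := orderOf_pos g
  refine ⟨⟨_, by rw [mul_comm]; exact hsum.symm⟩, ?_⟩
  have h3 : n / orderOf g = Multiset.card g.cycleType :=
    Nat.div_eq_of_eq_mul_left hpos hsum.symm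
  rw [h3]
  exact hrep

theorem semireg_conj (g : Equiv.Perm (Fin n))
    (hg : ∀ (k : ℕ) (x : Fin n), (g ^ k) x = x → g ^ k = 1) :
    ∃ (c : Equiv.Perm (Fin n)) (r : ℕ), c * g * c⁻¹ = (finRotate n) ^ r := by
  by_cases h1 : g = 1
  · exact ⟨1, 0, by rw [h1]; simp⟩
  have hn : 2 ≤ n := by
    by_contra hlt
    apply h1
    have : Subsingleton (Fin n) := by
      rw [Fin.subsingleton_iff_le_one]
      omega
    exact Subsingleton.elim _ _
  obtain ⟨hdvd, htype⟩ := cy1_type g hg h1
  have hpos : 0 < orderOf g := orderOf_pos g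
  have hcyc : (finRotate n).IsCycle := isCycle_finRotate_of_le hn
  have hord : orderOf (finRotate n) = n := by
    rw [hcyc.orderOf, support_finRotate_of_le hn, Finset.card_univ, Fintype.card_fin]
  have hq0 : n / orderOf g ≠ 0 := by
    have := Nat.div_pos (Nat.le_of_dvd (by omega) hdvd) hpos
    omega
  have hord2 : orderOf ((finRotate n) ^ (n / orderOf g)) = orderOf g := by
    rw [orderOf_pow_of_dvd hq0 (by rw [hord]; exact Nat.div_dvd_of_dvd hdvd), hord]
    exact Nat.div_div_self hdvd (by omega)
  have hne : (finRotate n) ^ (n / orderOf g) ≠ 1 := by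
    intro h
    apply h1
    rw [h, orderOf_one] at hord2
    exact orderOf_eq_one_iff.1 hord2.symm
  have hsemi : ∀ (k : ℕ) (x : Fin n), (((finRotate n) ^ (n / orderOf g)) ^ k) x = x →
      ((finRotate n) ^ (n / orderOf g)) ^ k = 1 := by
    intro k x hx
    rw [← pow_mul] at hx ⊢
    rw [hcyc.pow_eq_one_iff]
    refine ⟨x, ?_, hx⟩
    have : x ∈ (finRotate n).support := by
      rw [support_finRotate_of_le hn]
      exact Finset.mem_univ x
    exact Equiv.Perm.mem_support.1 this
  have ht2 := (cy1_type _ hsemi hne).2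
  rw [hord2, ← htype] at ht2
  have hconj : IsConj g ((finRotate n) ^ (n / orderOf g)) :=
    Equiv.Perm.isConj_iff_cycleType_eq.2 ht2.symm
  obtain ⟨c, hc⟩ := isConj_iff.1 hconj
  exact ⟨c, n / orderOf g, hc⟩

end Pool.Agent.Lib.HyC
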