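import Pool.Agent.Lib.HyC.Defs

/-!
# HyC, row Quo: numbering the classes of an equivalence relation

PROOF IN WORDS. `m = Fintype.card (Quotient r)` (classical), `π = Fintype.equivFin ∘ Quotient.mk`.
-/

set_option autoImplicit false

namespace Pool.Agent.Lib.HyC

open Pool.Agent.Lib.HyS Finset

variable {n m : ℕ}

theorem quo (r : Setoid (Fin n)) : ∃ (m : ℕ) (π : Fin n → Fin m), Function.Surjective π ∧
    ∀ a b, π a = π b ↔ r.r a b := by
  classical
  refine ⟨Fintype.card (Quotient r), fun a => Fintype.equivFin (Quotient r) (Quotient.mk r a),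
    (Fintype.equivFin (Quotient r)).surjective.comp Quotient.mk_surjective, ?_⟩
  intro a b
  refine (Fintype.equivFin (Quotient r)).injective.eq_iff.trans ?_
  exact Quotient.eq

end Pool.Agent.Lib.HyC
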