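import Pool.Agent.Lib.HyC.Cmp
import Pool.Agent.Lib.HyC.Quo
import Pool.Agent.Lib.HyC.Cy1
import Pool.Agent.Lib.HyS.Alc
import Pool.Agent.Lib.HyS.Conj

/-!
# HyC: cyclic groups
-/

set_option autoImplicit false

namespace Pool.Agent.Lib.HyC

open Pool.Agent.Lib.HyS Finset

variable {n m : ℕ}

theorem rot_mem (n r : ℕ) : (finRotate n) ^ r ∈ dihedral n :=
  (dihedral n).pow_mem (Subgroup.subset_closure (by simp)) r

/-- a group of powers of a semiregular permutation -/
theorem semireg_exists (k : ℕ) (g : Equiv.Perm (Fin n))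
    (hg : ∀ (k : ℕ) (x : Fin n), (g ^ k) x = x → g ^ k = 1) (G : Subgroup (Equiv.Perm (Fin n)))
    (hG : ∀ σ ∈ G, ∃ l : ℕ, σ = g ^ l) : ∃ T : LatticeTriangulation k n, Invariant G T := by
  obtain ⟨c, r, hc⟩ := semireg_conj g hg
  obtain ⟨T, hT⟩ := alcoved_exists k n
  refine exists_conj T hT c ?_
  intro σ hσ
  obtain ⟨l, rfl⟩ := hG σ hσ
  have h1 : c * g ^ l * c⁻¹ = (c * g * c⁻¹) ^ l := by simp [conj_pow]
  rw [h1, hc, ← pow_mul]
  exact rot_mem n _

/-- two involutions which are powers of one element of finite order are equal -/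
theorem invol_unique (g : Equiv.Perm (Fin n)) (k l : ℕ) (hk : (g ^ k) ^ 2 = 1)
    (hl : (g ^ l) ^ 2 = 1) (hk1 : g ^ k ≠ 1) (hl1 : g ^ l ≠ 1) : g ^ k = g ^ l := by
  rw [← pow_mul, ← orderOf_dvd_iff_pow_eq_one] at hk hl
  have hk1' : ¬ orderOf g ∣ k := fun h => hk1 (orderOf_dvd_iff_pow_eq_one.1 h)
  have hl1' : ¬ orderOf g ∣ l := fun h => hl1 (orderOf_dvd_iff_pow_eq_one.1 h)
  obtain ⟨a, ha⟩ := hk
  obtain ⟨b, hb⟩ := hl
  rw [pow_eq_pow_iff_modEq]
  have hao : a % 2 = 1 := by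
    by_contra h
    apply hk1'
    refine ⟨a / 2, ?_⟩
    have h2 : a = 2 * (a / 2) := by omega
    rw [h2] at ha
    have : k * 2 = (orderOf g * (a / 2)) * 2 := by rw [ha]; ring
    omega
  have hbo : b % 2 = 1 := by
    by_contra h
    apply hl1'
    refine ⟨b / 2, ?_⟩
    have h2 : b = 2 * (b / 2) := by omega
    rw [h2] at hb
    have : l * 2 = (orderOf g * (b / 2)) * 2 := by rw [hb]; ring
    omega
  rw [Nat.modEq_iff_dvd]
  refine ⟨(b : ℤ) / 2 - (a : ℤ) / 2, ?_⟩
  have ha' : (k : ℤ) * 2 = orderOf g * a := by exact_mod_cast ha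
  have hb' : (l : ℤ) * 2 = orderOf g * b := by exact_mod_cast hb
  have ea : (a : ℤ) = 2 * ((a : ℤ) / 2) + 1 := by omega
  have eb : (b : ℤ) = 2 * ((b : ℤ) / 2) + 1 := by omega
  rw [ea] at ha'
  rw [eb] at hb'
  have : 2 * ((l : ℤ) - k) = 2 * ((orderOf g : ℤ) * ((b : ℤ) / 2 - (a : ℤ) / 2)) := by
    have : 2 * ((l : ℤ) - k) = l * 2 - k * 2 := by ring
    rw [this, ha', hb']
    ring
  exact mul_left_cancel₀ (by norm_num) this

theorem cyc_exists (G : Subgroup (Equiv.Perm (Fin n))) (g : Equiv.Perm (Fin n)) (hgG : g ∈ G)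
    (hG : ∀ σ ∈ G, ∃ l : ℕ, σ = g ^ l) (hs : Small G) :
    ∃ T : LatticeTriangulation 2 n, Invariant G T := by
  by_cases hsr : ∀ (k : ℕ) (x : Fin n), (g ^ k) x = x → g ^ k = 1
  · exact semireg_exists 2 g hsr G hG
  push Not at hsr
  obtain ⟨k, x, hx, hk1⟩ := hsr
  -- elements with a fixed point are involutions
  have hinv2 : ∀ l : ℕ, ∀ z, (g ^ l) z = z → (g ^ l) ^ 2 = 1 := by
    intro l z hz
    ext1 y
    have hlG : g ^ l ∈ G := G.pow_mem hgG l
    have h := hs z y (g ^ l) hlG ((g ^ l) ^ 2) (G.pow_mem hlG 2) hz (by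
      rw [pow_two, Equiv.Perm.mul_apply, hz, hz])
    rcases h with h | h | h
    · rw [pow_two, Equiv.Perm.mul_apply, h, h]; rfl
    · rw [h]; rfl
    · rw [pow_two, Equiv.Perm.mul_apply] at h ⊢
      have h' : y = (g ^ l) y := (g ^ l).injective h
      rw [← h', ← h']; rfl
  have hfix : ∀ l : ℕ, ∀ z, (g ^ l) z = z → g ^ l = 1 ∨ g ^ l = g ^ k := by
    intro l z hz
    by_cases hl1 : g ^ l = 1
    · exact Or.inl hl1
    · exact Or.inr (invol_unique g l k (hinv2 l z hz) (hinv2 k x hx) hl1 hk1)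
  have hτ2 : ∀ y, (g ^ k) ((g ^ k) y) = y := by
    intro y
    rw [← Equiv.Perm.mul_apply, ← pow_two, hinv2 k x hx]; rfl
  let r : Setoid (Fin n) :=
    { r := fun a b => a = b ∨ (g ^ k) a = b
      iseqv :=
        { refl := fun a => Or.inl rfl
          symm := by
            rintro a b (h | h)
            · exact Or.inl h.symm
            · refine Or.inr ?_
              rw [← h, hτ2]
          trans := by
            rintro a b c (h | h) (h' | h')
            · exact Or.inl (h.trans h')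
            · subst h; exact Or.inr h'
            · subst h'; exact Or.inr h
            · refine Or.inl ?_
              rw [← h, hτ2] at h'
              exact h' } }
  obtain ⟨m, π, hsur, hπ⟩ := quo r
  have hπ' : ∀ a b, π a = π b ↔ (a = b ∨ (g ^ k) a = b) := hπ
  have hτπ : ∀ y, π ((g ^ k) y) = π y := by
    intro y
    rw [hπ']
    exact Or.inr (hτ2 y)
  have hcomm : ∀ y, g ((g ^ k) y) = (g ^ k) (g y) := by
    intro y
    rw [← Equiv.Perm.mul_apply, ← Equiv.Perm.mul_apply, ← pow_succ, ← pow_succ']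
  have hgc : ∀ a b, π a = π b → π (g a) = π (g b) := by
    intro a b h
    rw [hπ'] at h ⊢
    rcases h with h | h
    · exact Or.inl (by rw [h])
    · exact Or.inr (by rw [← h, hcomm])
  choose s hsec using hsur
  let f : Fin m → Fin m := fun p => π (g (s p))
  have hf : ∀ i, π (g i) = f (π i) := by
    intro i
    exact hgc _ _ (hsec (π i)).symm
  have hfs : Function.Surjective f := by
    intro p
    refine ⟨π (g⁻¹ (s p)), ?_⟩
    rw [← hf, ← Equiv.Perm.mul_apply, mul_inv_cancel, Equiv.Perm.one_apply, hsec]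
  let gb : Equiv.Perm (Fin m) := Equiv.ofBijective f (Finite.surjective_iff_bijective.1 hfs)
  have hgb : ∀ i, π (g i) = gb (π i) := hf
  have hgbp : ∀ (l : ℕ) i, π ((g ^ l) i) = (gb ^ l) (π i) := by
    intro l
    induction l with
    | zero => intro i; rfl
    | succ l ih =>
      intro i
      rw [pow_succ', pow_succ', Equiv.Perm.mul_apply, Equiv.Perm.mul_apply, hgb, ih]
  have hsrb : ∀ (l : ℕ) (p : Fin m), (gb ^ l) p = p → gb ^ l = 1 := by
    intro l p hp
    obtain ⟨i, rfl⟩ : ∃ i, π i = p := ⟨s p, hsec p⟩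
    have hkey : g ^ l = 1 ∨ g ^ l = g ^ k := by
      rw [← hgbp, hπ'] at hp
      rcases hp with hp | hp
      · exact hfix l i hp
      · have h1 : (g ^ (k + l)) i = i := by rw [pow_add, Equiv.Perm.mul_apply]; exact hp
        have h2 : g ^ l = g ^ k * g ^ (k + l) := by
          rw [pow_add, ← mul_assoc, ← pow_two, hinv2 k x hx, one_mul]
        rcases hfix _ i h1 with h | h
        · right; rw [h2, h, mul_one]
        · left; rw [h2, h, ← pow_two, hinv2 k x hx]
    ext1 q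
    obtain ⟨j, rfl⟩ : ∃ j, π j = q := ⟨s q, hsec q⟩
    rw [← hgbp]
    rcases hkey with h | h
    · rw [h]; rfl
    · rw [h, hτπ]; rfl
  obtain ⟨Tb, hTb⟩ := semireg_exists 2 gb hsrb (Subgroup.zpowers gb) (by
    intro σ hσ
    rw [← mem_powers_iff_mem_zpowers] at hσ
    obtain ⟨l, hl⟩ := hσ
    exact ⟨l, hl.symm⟩)
  refine composition G π (fun p => ⟨s p, hsec p⟩) ?_ ?_ Tb (Subgroup.zpowers gb) hTb ?_
  · intro a b c hab hbc
    rw [hπ'] at hab hbc
    rcases hab with h | h
    · exact Or.inl h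
    · rcases hbc with h' | h'
      · exact Or.inr (Or.inl h')
      · right; right
        rw [← h, hτ2] at h'
        exact h'
  · intro σ hσ i hi j
    obtain ⟨l, rfl⟩ := hG σ hσ
    rcases hfix l i hi with h | h
    · rw [h]; rfl
    · rw [h, hτπ]
  · intro σ hσ
    obtain ⟨l, rfl⟩ := hG σ hσ
    exact ⟨gb ^ l, Subgroup.npow_mem_zpowers gb l, hgbp l⟩

end Pool.Agent.Lib.HyC
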