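import Pool.Agent.Lib.HyC.Cmp
import Pool.Agent.Lib.HyC.Quo
import Pool.Agent.Lib.HyC.Cy2

/-!
# HyC: iteration of the composition theorem
-/

set_option autoImplicit false

namespace Pool.Agent.Lib.HyC

open Pool.Agent.Lib.HyS Finset

/-- Division by a normal subgroup with orbits of length at most two which contains all point
stabilisers. -/
theorem step {n : ℕ} (G N : Subgroup (Equiv.Perm (Fin n))) (hNG : N ≤ G)
    (hNn : ∀ σ ∈ G, ∀ ν ∈ N, σ * ν * σ⁻¹ ∈ N)
    (hst : ∀ σ ∈ G, ∀ i, σ i = i → σ ∈ N)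
    (hN2 : ∀ x, ∀ s ∈ N, ∀ t ∈ N, s x = x ∨ t x = x ∨ s x = t x) :
    ∃ (m : ℕ) (φ : G →* Equiv.Perm (Fin m)),
      (∀ (σ : G) (p : Fin m), φ σ p = p → φ σ = 1) ∧
      ((∃ ν ∈ N, ν ≠ 1) → m < n) ∧
      ((∃ T : LatticeTriangulation 2 m, Invariant φ.range T) →
        ∃ T' : LatticeTriangulation 2 n, Invariant G T') := by
  classical
  let r : Setoid (Fin n) :=
    { r := fun a b => ∃ ν ∈ N, ν a = b
      iseqv :=
        { refl := fun a => ⟨1, N.one_mem, rfl⟩
          symm := by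
            rintro a b ⟨σ, hσ, rfl⟩
            exact ⟨σ⁻¹, N.inv_mem hσ, by simp⟩
          trans := by
            rintro a b c ⟨σ, hσ, rfl⟩ ⟨τ, hτ, rfl⟩
            exact ⟨τ * σ, N.mul_mem hτ hσ, rfl⟩ } }
  obtain ⟨m, π, hsur, hπ⟩ := quo r
  have hπ' : ∀ a b, π a = π b ↔ ∃ ν ∈ N, ν a = b := hπ
  have hinv : ∀ σ ∈ N, ∀ j, π (σ j) = π j := by
    intro σ hσ j
    rw [hπ']
    exact ⟨σ⁻¹, N.inv_mem hσ, by simp⟩
  have hgc : ∀ σ ∈ G, ∀ a b, π a = π b → π (σ a) = π (σ b) := by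
    intro σ hσ a b h
    rw [hπ'] at h ⊢
    obtain ⟨ν, hν, rfl⟩ := h
    exact ⟨σ * ν * σ⁻¹, hNn σ hσ ν hν, by simp⟩
  have hsur' := hsur
  choose s hsec using hsur
  let f : G →* Function.End (Fin m) :=
    { toFun := fun σ => fun p => π ((σ : Equiv.Perm (Fin n)) (s p))
      map_one' := by
        funext p
        exact hsec p
      map_mul' := by
        intro σ τ
        funext p
        show π ((σ : Equiv.Perm (Fin n)) ((τ : Equiv.Perm (Fin n)) (s p))) =
          π ((σ : Equiv.Perm (Fin n)) (s (π ((τ : Equiv.Perm (Fin n)) (s p)))))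
        exact hgc σ σ.2 _ _ (hsec _).symm }
  let φ : G →* Equiv.Perm (Fin m) := MonoidHom.toHomPerm f
  have hφ : ∀ (σ : G) i, π ((σ : Equiv.Perm (Fin n)) i) = φ σ (π i) := by
    intro σ i
    exact hgc σ σ.2 _ _ (hsec _).symm
  have hφN : ∀ σ : G, (σ : Equiv.Perm (Fin n)) ∈ N → φ σ = 1 := by
    intro σ hσ
    ext1 p
    obtain ⟨j, rfl⟩ := hsur' p
    rw [← hφ, hinv _ hσ]; rfl
  refine ⟨m, φ, ?_, ?_, ?_⟩
  · intro σ p hp
    obtain ⟨i, rfl⟩ := hsur' p
    rw [← hφ, hπ'] at hp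
    obtain ⟨ν, hν, hi⟩ := hp
    have h1 : ν * (σ : Equiv.Perm (Fin n)) ∈ N :=
      hst _ (G.mul_mem (hNG hν) σ.2) i hi
    have h2 : (σ : Equiv.Perm (Fin n)) ∈ N := by
      have := N.mul_mem (N.inv_mem hν) h1
      simpa using this
    exact hφN σ h2
  · rintro ⟨ν, hν, hν1⟩
    have hni : ¬ Function.Injective π := by
      intro hi
      apply hν1
      ext1 a
      exact hi (hinv ν hν a)
    have := Fintype.card_lt_of_surjective_not_injective π hsur' hni
    simpa using this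
  · rintro ⟨T, hT⟩
    refine composition G π hsur' ?_ ?_ T φ.range hT ?_
    · intro a b c hab hbc
      rw [hπ'] at hab hbc
      obtain ⟨ν, hν, hab⟩ := hab
      obtain ⟨μ, hμ, hbc⟩ := hbc
      have hν' : ν⁻¹ b = a := by rw [← hab]; simp
      have h := hN2 b ν⁻¹ (N.inv_mem hν) μ hμ
      rw [hν', hbc] at h
      rcases h with h | h | h
      · exact Or.inl h
      · exact Or.inr (Or.inl h.symm)
      · exact Or.inr (Or.inr h)
    · intro σ hσ i hi j
      exact hinv σ (hst σ hσ i hi) j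
    · intro σ hσ
      exact ⟨φ ⟨σ, hσ⟩, ⟨_, rfl⟩, fun i => hφ ⟨σ, hσ⟩ i⟩

/-- Semiregular actions of central products of a 2-group and a cyclic group. -/
theorem smr {A : Type} [Group A] (P : Subgroup A) (hP : IsPGroup 2 P) (g : A)
    (hc : ∀ x ∈ P, x * g = g * x) (hA : ∀ a : A, ∃ x ∈ P, ∃ l : ℕ, a = x * g ^ l) :
    ∀ (n : ℕ) (φ : A →* Equiv.Perm (Fin n)), (∀ a p, φ a p = p → φ a = 1) →
      ∃ T : LatticeTriangulation 2 n, Invariant φ.range T := by
  intro n
  induction n using Nat.strong_induction_on with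
  | _ n ih =>
    intro φ hφ
    by_cases h : ∀ x ∈ P, φ x = 1
    · refine semireg_exists 2 (φ g) ?_ φ.range ?_
      · intro k x hx
        rw [← map_pow] at hx ⊢
        exact hφ _ _ hx
      · rintro σ ⟨a, rfl⟩
        obtain ⟨x, hx, l, rfl⟩ := hA a
        refine ⟨l, ?_⟩
        rw [map_mul, map_pow, h x hx, one_mul]
    · push Not at h
      obtain ⟨x0, hx0, hx1⟩ := h
      have hQ : IsPGroup 2 (P.map φ) := hP.map φ
      have hQn : Nontrivial (P.map φ) := by
        rw [Subgroup.nontrivial_iff_exists_ne_one]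
        exact ⟨φ x0, ⟨x0, hx0, rfl⟩, hx1⟩
      haveI : Fact (Nat.Prime 2) := ⟨Nat.prime_two⟩
      haveI hZn : Nontrivial (Subgroup.center (P.map φ)) := hQ.center_nontrivial
      have hZ : IsPGroup 2 (Subgroup.center (P.map φ)) := hQ.to_subgroup _
      obtain ⟨e, he, hcard⟩ := hZ.nontrivial_iff_card.1 hZn
      obtain ⟨t, ht⟩ := exists_prime_orderOf_dvd_card' (G := Subgroup.center (P.map φ)) 2 (by
        rw [hcard]; exact dvd_pow_self 2 (by omega))
      obtain ⟨⟨τ, hτQ⟩, hτZ⟩ := t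
      obtain ⟨u, hu, huτ⟩ := hτQ
      have ht1 : τ ≠ 1 := by
        rintro rfl
        have : (⟨⟨1, ⟨u, hu, huτ⟩⟩, hτZ⟩ : Subgroup.center (P.map φ)) = 1 := rfl
        rw [this, orderOf_one] at ht
        omega
      have ht2 : τ * τ = 1 := by
        have h1 := pow_orderOf_eq_one
          (⟨⟨τ, ⟨u, hu, huτ⟩⟩, hτZ⟩ : Subgroup.center (P.map φ))
        rw [ht, pow_two] at h1
        exact congrArg (fun z : Subgroup.center (P.map φ) =>
          ((z : P.map φ) : Equiv.Perm (Fin n))) h1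
      have hcQ : ∀ y ∈ P.map φ, y * τ = τ * y := by
        intro y hy
        have h1 := Subgroup.mem_center_iff.1 hτZ ⟨y, hy⟩
        exact congrArg (fun z : P.map φ => (z : Equiv.Perm (Fin n))) h1
      have hcg : ∀ l : ℕ, (φ g) ^ l * τ = τ * (φ g) ^ l := by
        intro l
        have h1 : Commute (φ g) τ := by
          rw [← huτ]
          show φ g * φ u = φ u * φ g
          rw [← map_mul, ← map_mul, hc u hu]
        exact (h1.pow_left l).eq
      have hca : ∀ σ ∈ φ.range, σ * τ = τ * σ := by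
        rintro σ ⟨a, rfl⟩
        obtain ⟨x, hx, l, rfl⟩ := hA a
        rw [map_mul, map_pow, mul_assoc, hcg, ← mul_assoc, hcQ _ ⟨x, hx, rfl⟩, mul_assoc]
      let N : Subgroup (Equiv.Perm (Fin n)) :=
        { carrier := {ν | ν = 1 ∨ ν = τ}
          one_mem' := Or.inl rfl
          mul_mem' := by
            rintro a b (rfl | rfl) (rfl | rfl)
            · exact Or.inl (mul_one 1)
            · exact Or.inr (one_mul _)
            · exact Or.inr (mul_one _)
            · exact Or.inl ht2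
          inv_mem' := by
            rintro a (rfl | rfl)
            · exact Or.inl inv_one
            · exact Or.inr (inv_eq_of_mul_eq_one_left ht2) }
      have hN : ∀ ν, ν ∈ N ↔ (ν = 1 ∨ ν = τ) := fun ν => Iff.rfl
      obtain ⟨m, ψ, hψ, hm, hT⟩ := step φ.range N (by
          intro ν hν
          rcases (hN ν).1 hν with rfl | rfl
          · exact one_mem _
          · exact ⟨u, huτ⟩) (by
          intro σ hσ ν hν
          rcases (hN ν).1 hν with rfl | rfl
          · rw [mul_one, mul_inv_cancel]; exact N.one_mem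
          · rw [hca σ hσ, mul_assoc, mul_inv_cancel, mul_one]; exact hν) (by
          rintro σ ⟨a, rfl⟩ i hi
          rw [hφ a i hi]
          exact N.one_mem) (by
          intro x s hs t ht
          rcases (hN s).1 hs with rfl | rfl
          · exact Or.inl rfl
          · rcases (hN t).1 ht with rfl | rfl
            · exact Or.inr (Or.inl rfl)
            · exact Or.inr (Or.inr rfl))
      have hlt : m < n := hm ⟨τ, Or.inr rfl, ht1⟩
      obtain ⟨T, hTi⟩ := ih m hlt (ψ.comp φ.rangeRestrict) (fun a p hap => hψ _ p hap)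
      refine hT ⟨T, ?_⟩
      rintro σ ⟨⟨y, a, rfl⟩, rfl⟩
      exact hTi _ ⟨a, rfl⟩

/-- Existence for all `G = P<g>` with a normal subgroup `N` whose orbits have length at most two and
which contains all point stabilisers. -/
theorem main_exists {n : ℕ} (G N P : Subgroup (Equiv.Perm (Fin n))) (g : Equiv.Perm (Fin n))
    (hNG : N ≤ G) (hNn : ∀ σ ∈ G, ∀ ν ∈ N, σ * ν * σ⁻¹ ∈ N)
    (hst : ∀ σ ∈ G, ∀ i, σ i = i → σ ∈ N)
    (hN2 : ∀ x, ∀ s ∈ N, ∀ t ∈ N, s x = x ∨ t x = x ∨ s x = t x)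
    (hP : IsPGroup 2 P) (hPG : P ≤ G) (hgG : g ∈ G) (hc : ∀ x ∈ P, x * g = g * x)
    (hG : ∀ s ∈ G, ∃ x ∈ P, ∃ l : ℕ, s = x * g ^ l) :
    ∃ T : LatticeTriangulation 2 n, Invariant G T := by
  obtain ⟨m, φ, hφ, -, hT⟩ := step G N hNG hNn hst hN2
  refine hT (smr (P.subgroupOf G) ?_ ⟨g, hgG⟩ ?_ ?_ m φ hφ)
  · exact hP.comap_subtype
  · rintro ⟨x, hx⟩ hxP
    exact Subtype.ext (hc x hxP)
  · rintro ⟨a, ha⟩
    obtain ⟨x, hx, l, hl⟩ := hG a ha
    exact ⟨⟨x, hPG hx⟩, hx, l, Subtype.ext hl⟩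

end Pool.Agent.Lib.HyC
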