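import Pool.Agent.Lib.HyC.Defs

/-!
# HyC, row Bary: uniqueness of the weights in a triangulation

PROOF IN WORDS. Let `W` be the common total weight. If `W = 0` all weights are zero (a sum of
nonnegative numbers). Otherwise `s` and `t` are not empty, so they are faces, and the point
`p = W⁻¹ • ∑ v ∈ s, a v • v` is in both convex hulls (`Finset.mem_convexHull'`, weights
`a v / W`, `b v / W`), so in the convex hull of `s ∩ t` (`T.K.inter_subset_convexHull`): there are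
weights `c v ≥ 0` on the elements of `s ∩ t` with sum one and `∑ c v • v = p`. The points of `s`
are affinely independent (`T.K.indep`), so `a v / W = c v` for `v ∈ s ∩ t` and `a v = 0` for
`v ∈ s`, `v ∉ t`; the same for `t`.
-/

set_option autoImplicit false

namespace Pool.Agent.Lib.HyC

open Pool.Agent.Lib.HyS Finset

private theorem bary_aff {n : ℕ} (s : Finset (Fin n → ℝ)) (hi : AffineIndependent ℝ ((↑) : s → (Fin n → ℝ)))
    (w : (Fin n → ℝ) → ℝ) (h0 : ∑ v ∈ s, w v = 0) (h1 : ∑ v ∈ s, w v • v = 0) : ∀ v ∈ s, w v = 0 := by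
  intro v hv
  refine (affineIndependent_iff.1 hi) Finset.univ (fun e => w e) ?_ ?_ ⟨v, hv⟩ (Finset.mem_univ _)
  · rw [← h0]
    exact Finset.sum_coe_sort s w
  · rw [← h1]
    exact Finset.sum_coe_sort s (fun v => w v • v)

open Classical in
private theorem bary_half {n : ℕ} (s t : Finset (Fin n → ℝ)) (hi : AffineIndependent ℝ ((↑) : s → (Fin n → ℝ)))
    (a c : (Fin n → ℝ) → ℝ) (W : ℝ) (hW0 : 0 < W) (hW : ∑ v ∈ s, a v = W) (hc1 : ∑ v ∈ s ∩ t, c v = 1)
    (hc : ∑ v ∈ s ∩ t, c v • v = W⁻¹ • ∑ v ∈ s, a v • v) :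
    (∀ v ∈ s, v ∈ t → a v = W * c v) ∧ (∀ v ∈ s, v ∉ t → a v = 0) := by
  have h1 : ∑ v ∈ s, (if v ∈ t then c v else 0) = 1 := by
    rw [← hc1, ← Finset.sum_filter, Finset.filter_mem_eq_inter]
  have h2 : ∑ v ∈ s, (if v ∈ t then c v else 0) • v = W⁻¹ • ∑ v ∈ s, a v • v := by
    rw [← hc, ← Finset.filter_mem_eq_inter, Finset.sum_filter]
    refine Finset.sum_congr rfl fun v _ => ?_
    split_ifs
    · rfl
    · rw [zero_smul]
  have key := bary_aff s hi (fun v => W⁻¹ * a v - (if v ∈ t then c v else 0)) (by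
    rw [Finset.sum_sub_distrib, ← Finset.mul_sum, hW, h1, inv_mul_cancel₀ hW0.ne', sub_self]) (by
    have : ∀ v : Fin n → ℝ, (W⁻¹ * a v - (if v ∈ t then c v else 0)) • v =
        W⁻¹ • (a v • v) - (if v ∈ t then c v else 0) • v := by
      intro v
      rw [sub_smul, mul_smul]
    rw [Finset.sum_congr rfl fun v _ => this v, Finset.sum_sub_distrib, ← Finset.smul_sum, h2, sub_self])
  constructor
  · intro v hv hvt
    have h3 := key v hv
    simp only [if_pos hvt] at h3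
    have h4 : W * (W⁻¹ * a v) = W * c v := by rw [sub_eq_zero.1 h3]
    rwa [← mul_assoc, mul_inv_cancel₀ hW0.ne', one_mul] at h4
  · intro v hv hvt
    have h3 := key v hv
    simp only [if_neg hvt, sub_zero] at h3
    rcases mul_eq_zero.1 h3 with h4 | h4
    · exact absurd h4 (inv_ne_zero hW0.ne')
    · exact h4

theorem bary {k n : ℕ} (T : LatticeTriangulation k n) (s t : Finset (Fin n → ℝ))
    (hs : s = ∅ ∨ s ∈ T.K.faces) (ht : t = ∅ ∨ t ∈ T.K.faces) (a b : (Fin n → ℝ) → ℝ)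
    (ha : ∀ v ∈ s, 0 ≤ a v) (hb : ∀ v ∈ t, 0 ≤ b v) (hW : ∑ v ∈ s, a v = ∑ v ∈ t, b v)
    (h : ∑ v ∈ s, a v • v = ∑ v ∈ t, b v • v) :
    (∀ v ∈ s, v ∈ t → a v = b v) ∧ (∀ v ∈ s, v ∉ t → a v = 0) ∧ (∀ v ∈ t, v ∉ s → b v = 0) := by
  classical
  rcases (Finset.sum_nonneg ha).eq_or_lt with h0 | h0
  · have ha0 := (Finset.sum_eq_zero_iff_of_nonneg ha).1 h0.symm
    have hb0 := (Finset.sum_eq_zero_iff_of_nonneg hb).1 (hW ▸ h0.symm)
    exact ⟨fun v h1 h2 => by rw [ha0 v h1, hb0 v h2], fun v h1 _ => ha0 v h1, fun v h1 _ => hb0 v h1⟩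
  · obtain ⟨W, hWd⟩ : ∃ W : ℝ, W = ∑ v ∈ s, a v := ⟨_, rfl⟩
    rw [← hWd] at h0 hW
    have hs' : s ∈ T.K.faces := by
      rcases hs with h1 | h1
      · rw [h1, Finset.sum_empty] at hWd
        exact absurd h0 (by rw [hWd]; exact lt_irrefl _)
      · exact h1
    have ht' : t ∈ T.K.faces := by
      rcases ht with h1 | h1
      · rw [h1, Finset.sum_empty] at hW
        exact absurd h0 (by rw [hW]; exact lt_irrefl _)
      · exact h1
    have hps : W⁻¹ • ∑ v ∈ s, a v • v ∈ convexHull ℝ (s : Set (Fin n → ℝ)) := by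
      rw [Finset.mem_convexHull']
      refine ⟨fun v => W⁻¹ * a v, fun v hv => mul_nonneg (inv_nonneg.2 h0.le) (ha v hv), ?_, ?_⟩
      · rw [← Finset.mul_sum, ← hWd, inv_mul_cancel₀ h0.ne']
      · rw [Finset.smul_sum]
        exact Finset.sum_congr rfl fun v _ => mul_smul _ _ _
    have hpt : W⁻¹ • ∑ v ∈ s, a v • v ∈ convexHull ℝ (t : Set (Fin n → ℝ)) := by
      rw [h, Finset.mem_convexHull']
      refine ⟨fun v => W⁻¹ * b v, fun v hv => mul_nonneg (inv_nonneg.2 h0.le) (hb v hv), ?_, ?_⟩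
      · rw [← Finset.mul_sum, ← hW, inv_mul_cancel₀ h0.ne']
      · rw [Finset.smul_sum]
        exact Finset.sum_congr rfl fun v _ => mul_smul _ _ _
    have hpi := T.K.inter_subset_convexHull hs' ht' ⟨hps, hpt⟩
    rw [← Finset.coe_inter, Finset.mem_convexHull'] at hpi
    obtain ⟨c, _, hc1, hc⟩ := hpi
    obtain ⟨x1, x2⟩ := bary_half s t (T.K.indep hs') a c W h0 hWd.symm hc1 hc
    obtain ⟨y1, y2⟩ := bary_half t s (T.K.indep ht') b c W h0 hW.symm (by rw [Finset.inter_comm]; exact hc1)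
      (by rw [Finset.inter_comm, hc, h])
    exact ⟨fun v h1 h2 => by rw [x1 v h1 h2, y1 v h2 h1], x2, y2⟩

end Pool.Agent.Lib.HyC
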