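import Pool.Agent.Lib.HyC.Defs
import Pool.Agent.Lib.HyS.CarA

/-!
# HyC, row ET: weights from the triangulation `T`

PROOF IN WORDS. If `∑ y = 0` then `y = 0`: take `w = 0`, `F = ∅`. Otherwise `x = (2 / ∑ y) • y` is in
`hypersimplex 2 m`; let `F0` be its carrier (`car_exists`) with weights `a I > 0` (sum one), a family of
2-sets. Let `w p q = (∑ y / 2) * a {p, q}` if `p ≠ q` and `{p, q} ∈ F0`, and `0` otherwise (classical
decidability; symmetric by `Finset.pair_comm`). `F` is the face `s` with `(s : Set _) = ind '' F0`. The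
degree: `∑ q, w p q = (∑ y / 2) * ∑ I ∈ F0 with p ∈ I, a I = (∑ y / 2) * x p = y p`: the map
`q ↦ {p, q}` is a bijection from the `q ≠ p` with `{p, q} ∈ F0` to the `I ∈ F0` with `p ∈ I`
(`Finset.sum_bij` / `Finset.sum_nbij`, `I.card = 2`), and `(∑ I ∈ F0, a I • ind I) p =
∑ I ∈ F0, if p ∈ I then a I else 0`.
-/

set_option autoImplicit false

namespace Pool.Agent.Lib.HyC

open Pool.Agent.Lib.HyS Finset

variable {n m : ℕ}

private theorem et_sum {m : ℕ} [DecidableEq (Finset (Fin m))] (F0 : Finset (Finset (Fin m))) (hc : ∀ I ∈ F0, I.card = 2) (a : Finset (Fin m) → ℝ) (p : Fin m) :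
    ∑ q ∈ univ.filter (fun q => p ≠ q ∧ ({p, q} : Finset (Fin m)) ∈ F0), a {p, q} = ∑ I ∈ F0.filter (fun I => p ∈ I), a I := by
  refine Finset.sum_bij (fun q _ => ({p, q} : Finset (Fin m))) (fun q hq => ?_) (fun q hq r hr h => ?_) (fun I hI => ?_) fun q _ => rfl
  · rw [mem_filter] at hq ⊢
    exact ⟨hq.2.2, mem_insert_self _ _⟩
  · rw [mem_filter] at hq hr
    have h1 : q ∈ ({p, r} : Finset (Fin m)) := h ▸ mem_insert_of_mem (mem_singleton_self q)
    rw [mem_insert, mem_singleton] at h1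
    rcases h1 with h1 | h1
    · exact absurd h1.symm hq.2.1
    · exact h1
  · rw [mem_filter] at hI
    obtain ⟨u, v, huv, hI2⟩ := card_eq_two.1 (hc I hI.1)
    have h1 := hI.2
    rw [hI2, mem_insert, mem_singleton] at h1
    rcases h1 with h1 | h1
    · refine ⟨v, mem_filter.2 ⟨mem_univ _, ?_, ?_⟩, ?_⟩
      · rw [h1]
        exact huv
      · rw [h1, ← hI2]
        exact hI.1
      · rw [h1, ← hI2]
    · refine ⟨u, mem_filter.2 ⟨mem_univ _, ?_, ?_⟩, ?_⟩
      · rw [h1]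
        exact huv.symm
      · rw [h1, pair_comm, ← hI2]
        exact hI.1
      · rw [h1, pair_comm, ← hI2]

theorem ex_T (T : LatticeTriangulation 2 m) (y : Fin m → ℝ) (hy : ∀ p, 0 ≤ y p)
    (hb : ∀ p, 2 * y p ≤ ∑ q, y q) :
    ∃ w : Fin m → Fin m → ℝ, IsW w ∧ (∀ p, deg w p = y p) ∧
      ∃ F : Finset (Fin m → ℝ), (F = ∅ ∨ F ∈ T.K.faces) ∧ ∀ p q, 0 < w p q → ind {p, q} ∈ F := by
  classical
  have hY0 : 0 ≤ ∑ q, y q := sum_nonneg fun q _ => hy q
  rcases hY0.eq_or_lt with hY | hY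
  · have hz : ∀ p, y p = 0 := fun p => (sum_eq_zero_iff_of_nonneg fun q _ => hy q).1 hY.symm p (mem_univ p)
    refine ⟨fun _ _ => 0, ⟨fun _ _ => le_rfl, fun _ _ => rfl, fun _ => rfl⟩, fun p => ?_, ∅, Or.inl rfl, fun p q h => absurd h (lt_irrefl _)⟩
    rw [hz p]
    exact sum_const_zero
  · set Y : ℝ := ∑ q, y q with hYd
    have hx : (fun p => 2 / Y * y p) ∈ hypersimplex 2 m := by
      refine ⟨fun p => ⟨mul_nonneg (by positivity) (hy p), ?_⟩, ?_⟩
      · show 2 / Y * y p ≤ 1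
        rw [div_mul_eq_mul_div, div_le_one hY]
        exact hb p
      · show ∑ p, 2 / Y * y p = ((2 : ℕ) : ℝ)
        rw [← mul_sum, ← hYd, div_mul_cancel₀ _ hY.ne']
        norm_num
    obtain ⟨F0, hF0⟩ := car_exists T hx
    obtain ⟨a, ha, ha1, hax⟩ := hF0.wt
    obtain ⟨s, hs, hse⟩ := hF0.face
    refine ⟨fun p q => if p ≠ q ∧ ({p, q} : Finset (Fin m)) ∈ F0 then Y / 2 * a {p, q} else 0, ⟨fun p q => ?_, fun p q => ?_, fun p => ?_⟩,
      fun p => ?_, s, Or.inr hs, fun p q h => ?_⟩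
    · split_ifs with h
      · exact (mul_pos (by linarith) (ha _ h.2)).le
      · exact le_rfl
    · rw [pair_comm q p]
      by_cases h : p = q
      · rw [if_neg fun h1 => h1.1 h, if_neg fun h1 => h1.1 h.symm]
      · by_cases h2 : ({p, q} : Finset (Fin m)) ∈ F0
        · rw [if_pos ⟨h, h2⟩, if_pos ⟨fun h1 => h h1.symm, h2⟩]
        · rw [if_neg fun h1 => h2 h1.2, if_neg fun h1 => h2 h1.2]
    · exact if_neg fun h => h.1 rfl
    · unfold deg
      have h1 : ∑ q, (if p ≠ q ∧ ({p, q} : Finset (Fin m)) ∈ F0 then Y / 2 * a {p, q} else 0) =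
          Y / 2 * ∑ q ∈ univ.filter (fun q => p ≠ q ∧ ({p, q} : Finset (Fin m)) ∈ F0), a {p, q} := by
        rw [mul_sum, sum_filter]
      have h2 : ∑ I ∈ F0.filter (fun I => p ∈ I), a I = 2 / Y * y p := by
        have h3 := congrFun hax p
        rw [Finset.sum_apply] at h3
        rw [sum_filter, ← h3]
        refine sum_congr rfl fun I _ => ?_
        show _ = a I * (if p ∈ I then 1 else 0)
        split_ifs <;> simp
      rw [h1, et_sum F0 hF0.card a p, h2]
      field_simp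
    · have h1 : ({p, q} : Finset (Fin m)) ∈ F0 := by
        by_contra hc
        have h0 : (if p ≠ q ∧ ({p, q} : Finset (Fin m)) ∈ F0 then Y / 2 * a {p, q} else 0) = 0 := if_neg fun h1 => hc h1.2
        exact lt_irrefl (0 : ℝ) (lt_of_lt_of_eq h h0)
      have h2 : (ind {p, q} : Fin m → ℝ) ∈ (s : Set (Fin m → ℝ)) := by
        rw [hse]
        exact ⟨{p, q}, h1, rfl⟩
      exact h2

end Pool.Agent.Lib.HyC
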