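import Pool.Agent.Lib.HyC.Cv

/-!
# HyC, row As2: intersection

PROOF IN WORDS. Let `x` be in both convex hulls, `x = ∑ v ∈ s, a v • v = ∑ v ∈ t, b v • v` with nonnegative weights of
sum one (`Finset.mem_convexHull'`). `toW s a` and `toW t b` are weights with the same degrees
(`cv_deg`), their supports satisfy `Cn` (`cv_supp`, `hm`), so they agree (`hu`). So for `v = ind {i, j}`
in `s` with `a v > 0`: `toW t b i j = a v > 0`, so `v ∈ t`. So `x` is a convex combination of the points
of `s ∩ t`: `x ∈ convexHull (s ∩ t)` (drop the points of weight zero: `Finset.sum_subset` /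
`Finset.sum_filter_ne_zero`; `Finset.mem_convexHull'` for `s ∩ t` and `Finset.coe_inter`).
-/

set_option autoImplicit false

namespace Pool.Agent.Lib.HyC

open Pool.Agent.Lib.HyS Finset

variable {n m : ℕ}

theorem as_inter (Cn : (Fin n → Fin n → Prop) → Prop) (hm : Mono Cn) (hu : Uniq Cn)
    (s t : Finset (Fin n → ℝ)) (hs : IsPairs s) (hcs : Cn (prs s)) (ht : IsPairs t)
    (hct : Cn (prs t)) :
    convexHull ℝ (s : Set (Fin n → ℝ)) ∩ convexHull ℝ (t : Set (Fin n → ℝ)) ⊆
      convexHull ℝ ((s : Set (Fin n → ℝ)) ∩ (t : Set (Fin n → ℝ))) := by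
  classical
  rintro x ⟨hx, hy⟩
  obtain ⟨a, ha0, ha1, hax⟩ := Finset.mem_convexHull'.1 hx
  obtain ⟨b, hb0, hb1, hbx⟩ := Finset.mem_convexHull'.1 hy
  have e : ∀ i j, toW s a i j = toW t b i j := by
    refine hu _ _ (cv_w s a ha0) (cv_w t b hb0) ?_ ?_ ?_
    · exact hm _ _ (fun i j h => (cv_supp s a i j h).1) hcs
    · exact hm _ _ (fun i j h => (cv_supp t b i j h).1) hct
    · intro i
      rw [cv_deg s hs a i, cv_deg t ht b i, hax, hbx]
  have key : ∀ v ∈ s, a v ≠ 0 → v ∈ t := by
    intro v hv hav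
    obtain ⟨i, j, hij, rfl⟩ := hs v hv
    by_contra hvt
    have h1 := e i j
    unfold toW at h1
    rw [if_pos ⟨hij, hv⟩, if_neg (fun h => hvt h.2)] at h1
    exact hav h1
  rw [← Finset.coe_inter, Finset.mem_convexHull']
  refine ⟨a, fun y hy => ha0 y (Finset.mem_inter.1 hy).1, ?_, ?_⟩
  · rw [← ha1]
    refine Finset.sum_subset Finset.inter_subset_left fun v hv hvn => ?_
    by_contra h
    exact hvn (Finset.mem_inter.2 ⟨hv, key v hv h⟩)
  · rw [← hax]
    refine Finset.sum_subset Finset.inter_subset_left fun v hv hvn => ?_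
    have h0 : a v = 0 := by
      by_contra h
      exact hvn (Finset.mem_inter.2 ⟨hv, key v hv h⟩)
    rw [h0, zero_smul]

end Pool.Agent.Lib.HyC
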