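import Pool.Agent.Lib.HyC.Cv

/-!
# HyC, row As3: covering

PROOF IN WORDS. Let `u` be the weights of `x` (`he`). Let `s` be the image of `{(i, j) | 0 < u i j}` under
`(i, j) ↦ ind {i, j}`. `IsPairs s` as `u i i = 0`. `prs s i j → supp u i j`: `ind {i, j} = ind {k, l}` with
`0 < u k l` gives `{i, j} = {k, l}` (`ind_injective`) and `u` is symmetric; so `Cn (prs s)` by `hm`.
`toW s a = u` for `a v = ` the common value (`a v = u i j` for a chosen `(i, j)` with `v = ind {i, j}`,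
`Classical.choose`, or `a v = (1/2) ∑ (i, j) with ind {i, j} = v, u i j`). So by `cv_deg`
`∑ v ∈ s, a v • v = x`, and by `cv_sum` `∑ v ∈ s, a v = (1/2) ∑ x i = 1`. So `x ∈ convexHull s`, and `s` is
not empty.
-/

set_option autoImplicit false

namespace Pool.Agent.Lib.HyC

open Pool.Agent.Lib.HyS Finset

variable {n m : ℕ}

private theorem as3_pair {i j k l : Fin n} (hkl : k ≠ l) (h : ind {k, l} = ind {i, j}) :
    (k = i ∧ l = j) ∨ (k = j ∧ l = i) := by
  have h1 : ({k, l} : Finset (Fin n)) = {i, j} := ind_injective n h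
  have h2 : k ∈ ({i, j} : Finset (Fin n)) := by
    rw [← h1]
    simp
  have h3 : l ∈ ({i, j} : Finset (Fin n)) := by
    rw [← h1]
    simp
  simp only [Finset.mem_insert, Finset.mem_singleton] at h2 h3
  rcases h2 with h2 | h2 <;> rcases h3 with h3 | h3
  · exact absurd (h2.trans h3.symm) hkl
  · exact Or.inl ⟨h2, h3⟩
  · exact Or.inr ⟨h2, h3⟩
  · exact absurd (h2.trans h3.symm) hkl

private theorem as3_val {u : Fin n → Fin n → ℝ} (hu : IsW u) {i j k l : Fin n} (hkl : k ≠ l)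
    (h : ind {k, l} = ind {i, j}) : u k l = u i j := by
  rcases as3_pair hkl h with ⟨h1, h2⟩ | ⟨h1, h2⟩
  · rw [h1, h2]
  · rw [h1, h2, hu.sym]

theorem as_cover (Cn : (Fin n → Fin n → Prop) → Prop) (hm : Mono Cn) (he : Exi Cn)
    (x : Fin n → ℝ) (hx : x ∈ hypersimplex 2 n) :
    ∃ s : Finset (Fin n → ℝ), s.Nonempty ∧ IsPairs s ∧ Cn (prs s) ∧
      x ∈ convexHull ℝ (s : Set (Fin n → ℝ)) := by
  classical
  obtain ⟨u, hu, hC, hdeg⟩ := he x hx
  obtain ⟨s, hs⟩ : ∃ s : Finset (Fin n → ℝ), s = (univ.filter (fun p : Fin n × Fin n =>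
      0 < u p.1 p.2)).image (fun p => ind {p.1, p.2}) := ⟨_, rfl⟩
  obtain ⟨a, ha⟩ : ∃ a : (Fin n → ℝ) → ℝ, a = fun v =>
      if h : ∃ p : Fin n × Fin n, p.1 ≠ p.2 ∧ ind {p.1, p.2} = v then u h.choose.1 h.choose.2 else 0 :=
    ⟨_, rfl⟩
  have hne : ∀ i j, 0 < u i j → i ≠ j := fun i j h hij => by
    rw [hij, hu.dg] at h
    exact lt_irrefl _ h
  have hmem : ∀ i j, 0 < u i j → ind {i, j} ∈ s := fun i j h => by
    rw [hs]
    exact Finset.mem_image.2 ⟨(i, j), Finset.mem_filter.2 ⟨Finset.mem_univ _, h⟩, rfl⟩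
  have hmem' : ∀ v ∈ s, ∃ i j, 0 < u i j ∧ ind {i, j} = v := fun v hv => by
    rw [hs] at hv
    obtain ⟨p, hp, hpv⟩ := Finset.mem_image.1 hv
    exact ⟨p.1, p.2, (Finset.mem_filter.1 hp).2, hpv⟩
  have hval : ∀ i j, i ≠ j → a (ind {i, j}) = u i j := fun i j hij => by
    have h : ∃ p : Fin n × Fin n, p.1 ≠ p.2 ∧ ind {p.1, p.2} = ind {i, j} := ⟨(i, j), hij, rfl⟩
    have h1 := h.choose_spec
    rw [ha]
    show (if h : ∃ p : Fin n × Fin n, p.1 ≠ p.2 ∧ ind {p.1, p.2} = ind {i, j} then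
      u h.choose.1 h.choose.2 else 0) = u i j
    rw [dif_pos h]
    exact as3_val hu h1.1 h1.2
  have hpairs : IsPairs s := fun v hv => by
    obtain ⟨i, j, h, rfl⟩ := hmem' v hv
    exact ⟨i, j, hne i j h, rfl⟩
  have hprs : ∀ i j, prs s i j → supp u i j := fun i j h => by
    obtain ⟨k, l, h1, h2⟩ := hmem' _ h.2
    have h3 := as3_val hu (hne k l h1) h2
    show 0 < u i j
    rw [← h3]
    exact h1
  have htoW : ∀ i j, toW s a i j = u i j := fun i j => by
    unfold toW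
    by_cases hij : i = j
    · rw [if_neg (fun h => h.1 hij), hij, hu.dg]
    by_cases hm' : ind {i, j} ∈ s
    · rw [if_pos ⟨hij, hm'⟩]
      exact hval i j hij
    · rw [if_neg (fun h => hm' h.2)]
      by_contra hc
      exact hm' (hmem i j (lt_of_le_of_ne (hu.nn i j) hc))
  have hdeg' : ∀ i, deg (toW s a) i = x i := fun i => by
    rw [← hdeg i]
    unfold deg
    exact Finset.sum_congr rfl fun j _ => htoW i j
  have hsum : ∑ v ∈ s, a v = 1 := by
    have h1 := cv_sum s hpairs a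
    rw [Finset.sum_congr rfl fun i _ => hdeg' i, hx.2] at h1
    push_cast at h1
    linarith
  have hpt : ∑ v ∈ s, a v • v = x := by
    funext i
    rw [← cv_deg s hpairs a i]
    exact hdeg' i
  have hnn : ∀ v ∈ s, 0 ≤ a v := fun v hv => by
    obtain ⟨i, j, h, rfl⟩ := hmem' v hv
    rw [hval i j (hne i j h)]
    exact h.le
  refine ⟨s, ?_, hpairs, hm _ _ hprs hC, ?_⟩
  · rw [Finset.nonempty_iff_ne_empty]
    rintro rfl
    simp at hsum
  · rw [Finset.mem_convexHull']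
    exact ⟨a, hnn, hsum, hpt⟩

end Pool.Agent.Lib.HyC
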