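import Pool.Agent.Lib.HyC.As1
import Pool.Agent.Lib.HyC.As2
import Pool.Agent.Lib.HyC.As3

/-!
# HyC, row Asm: assembly of the complex

PROOF IN WORDS. `K.faces = {s | s.Nonempty ∧ IsPairs s ∧ Cn (prs s)}`; down closed by `hm`; `as_indep`, `as_inter`;
space: `⊆`: the points `ind {i, j}` lie in `hypersimplex 2 n`, which is convex (`convexHull_min`);
`⊇`: `as_cover`. Vertices are integral.
-/

set_option autoImplicit false

namespace Pool.Agent.Lib.HyC

open Pool.Agent.Lib.HyS Finset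

variable {n m : ℕ}

private lemma cvx (k n : ℕ) : Convex ℝ (hypersimplex k n) := by
  intro x hx y hy a b ha hb hab
  refine ⟨fun i => ?_, ?_⟩
  · have h1 := hx.1 i
    have h2 := hy.1 i
    simp only [Pi.add_apply, Pi.smul_apply, smul_eq_mul]
    constructor
    · exact add_nonneg (mul_nonneg ha h1.1) (mul_nonneg hb h2.1)
    · nlinarith [mul_le_mul_of_nonneg_left h1.2 ha, mul_le_mul_of_nonneg_left h2.2 hb]
  · simp only [Pi.add_apply, Pi.smul_apply, smul_eq_mul, Finset.sum_add_distrib, ← Finset.mul_sum]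
    rw [hx.2, hy.2, ← add_mul, hab, one_mul]

private lemma pair_mem {i j : Fin n} (h : i ≠ j) :
    (ind {i, j} : Fin n → ℝ) ∈ hypersimplex 2 n := by
  refine ⟨fun k => ?_, ?_⟩
  · unfold ind
    split_ifs <;> norm_num
  · unfold ind
    rw [Finset.sum_ite_mem, Finset.univ_inter, Finset.sum_const, nsmul_eq_mul, mul_one,
      Finset.card_pair h]

theorem as_all (Cn : (Fin n → Fin n → Prop) → Prop) (hm : Mono Cn) (hu : Uniq Cn)
    (he : Exi Cn) : ∃ T : LatticeTriangulation 2 n,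
      ∀ s, s ∈ T.K.faces ↔ (s.Nonempty ∧ IsPairs s ∧ Cn (prs s)) := by
  let K : Geometry.SimplicialComplex ℝ (Fin n → ℝ) :=
    { faces := {s | s.Nonempty ∧ IsPairs s ∧ Cn (prs s)}
      isRelLowerSet_faces := fun s hs => ⟨hs.1, fun t hts ht =>
        ⟨ht, fun v hv => hs.2.1 v (hts hv), hm _ _ (fun i j h => ⟨h.1, hts h.2⟩) hs.2.2⟩⟩
      indep := fun hs => as_indep Cn hm hu _ hs.2.1 hs.2.2
      inter_subset_convexHull := fun hs ht =>
        as_inter Cn hm hu _ _ hs.2.1 hs.2.2 ht.2.1 ht.2.2 }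
  have hf : ∀ s, s ∈ K.faces ↔ (s.Nonempty ∧ IsPairs s ∧ Cn (prs s)) := fun s => Iff.rfl
  refine ⟨⟨K, ?_, ?_⟩, hf⟩
  · ext p
    rw [Geometry.SimplicialComplex.mem_space_iff]
    constructor
    · rintro ⟨s, hs, hp⟩
      refine convexHull_min ?_ (cvx 2 n) hp
      intro v hv
      obtain ⟨i, j, hij, rfl⟩ := ((hf s).1 hs).2.1 v (Finset.mem_coe.1 hv)
      exact pair_mem hij
    · intro hp
      obtain ⟨s, h1, h2, h3, h4⟩ := as_cover Cn hm he p hp
      exact ⟨s, ⟨h1, h2, h3⟩, h4⟩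
  · intro v hv i
    obtain ⟨a, b, -, hab⟩ := ((hf _).1 (Geometry.SimplicialComplex.mem_vertices.1 hv)).2.1 v
      (Finset.mem_singleton_self v)
    rw [hab]
    unfold ind
    split_ifs
    · exact ⟨1, by norm_num⟩
    · exact ⟨0, by norm_num⟩

end Pool.Agent.Lib.HyC
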