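import Pool.Agent.Lib.HyC.Defs
import Pool.Agent.Lib.HyS.CarC

/-!
# HyC, row Iv1: invariance of the complex from invariance of `Cn`

PROOF IN WORDS. For `σ ∈ G` and a face `s` let `t = s.image (permute σ)` (`Finset.coe_image`). `permute σ (ind {i, j}) =
ind {σ i, σ j}` (`permute_ind` in HyS.CarC, `Finset.map_insert`, `Finset.map_singleton`). So `t` is
nonempty and `IsPairs`, and `prs t i j ↔ prs s (σ.symm i) (σ.symm j)` (`ind_injective`/`permute` is
injective); by `hG` `Cn (prs t)`.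
-/

set_option autoImplicit false

namespace Pool.Agent.Lib.HyC

open Pool.Agent.Lib.HyS Finset

variable {n m : ℕ}

private theorem perm_inj (σ : Equiv.Perm (Fin n)) {v w : Fin n → ℝ} (h : permute σ v = permute σ w) : v = w := by
  funext i
  have h1 := congrFun h (σ i)
  unfold permute at h1
  rwa [Equiv.symm_apply_apply] at h1

private theorem perm_pair (σ : Equiv.Perm (Fin n)) (i j : Fin n) : permute σ (ind {i, j}) = ind {σ i, σ j} := by
  rw [permute_ind, map_insert, map_singleton]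
  rfl

theorem inv_of (T : LatticeTriangulation 2 n) (Cn : (Fin n → Fin n → Prop) → Prop)
    (hm : Mono Cn) (hT : ∀ s, s ∈ T.K.faces ↔ (s.Nonempty ∧ IsPairs s ∧ Cn (prs s)))
    (G : Subgroup (Equiv.Perm (Fin n)))
    (hG : ∀ σ ∈ G, ∀ S, Cn S → Cn (fun i j => S (σ.symm i) (σ.symm j))) : Invariant G T := by
  classical
  intro σ hσ s hs
  obtain ⟨hne, hp, hc⟩ := (hT s).1 hs
  refine ⟨s.image (permute σ), (hT _).2 ⟨hne.image _, ?_, ?_⟩, coe_image⟩
  · intro v hv
    obtain ⟨w, hw, rfl⟩ := mem_image.1 hv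
    obtain ⟨i, j, hij, rfl⟩ := hp w hw
    exact ⟨σ i, σ j, fun h => hij (σ.injective h), perm_pair σ i j⟩
  · refine hm _ (fun i j => prs s (σ.symm i) (σ.symm j)) ?_ (hG σ hσ _ hc)
    rintro i j ⟨hij, hmem⟩
    obtain ⟨w, hw, he⟩ := mem_image.1 hmem
    refine ⟨fun h => hij (σ.symm.injective h), ?_⟩
    have h1 : w = ind {σ.symm i, σ.symm j} := by
      refine perm_inj σ ?_
      rw [he, perm_pair, Equiv.apply_symm_apply, Equiv.apply_symm_apply]
    rw [← h1]
    exact hw

end Pool.Agent.Lib.HyC
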