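import Pool.Agent.Lib.HyC.Cv

/-!
# HyC, row As1: affine independence

PROOF IN WORDS. Use `affineIndependent_iff` (or the version with `Finset`/`Fintype` sums): let `a : s → ℝ` have sum
zero and `∑ a v • v = 0`; extend `a` by zero to all points. Let `u = toW s a⁺`, `v = toW s a⁻` with
`a⁺ = max a 0`, `a⁻ = max (-a) 0`. Both are weights (`cv_w`), their supports are contained in `prs s`
(`cv_supp`), so they satisfy `Cn` (`hm`); the degrees agree by `cv_deg` as
`∑ a⁺ v • v - ∑ a⁻ v • v = ∑ a v • v = 0`. So `u = v` by `hu`; for `v0 = ind {i, j} ∈ s`, `i ≠ j`: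
`a⁺ v0 = a⁻ v0`, so `a v0 = 0`.
-/

set_option autoImplicit false

namespace Pool.Agent.Lib.HyC

open Pool.Agent.Lib.HyS Finset

variable {n m : ℕ}

theorem as_indep (Cn : (Fin n → Fin n → Prop) → Prop) (hm : Mono Cn) (hu : Uniq Cn)
    (s : Finset (Fin n → ℝ)) (hs : IsPairs s) (hc : Cn (prs s)) :
    AffineIndependent ℝ ((↑) : s → Fin n → ℝ) := by
  classical
  rw [affineIndependent_iff]
  intro t w _ hw e he
  set a : (Fin n → ℝ) → ℝ := fun v => if h : v ∈ s then (if (⟨v, h⟩ : s) ∈ t then w ⟨v, h⟩ else 0) else 0 with ha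
  have hsum : ∑ v ∈ s, a v • v = 0 := by
    rw [← hw, ← Finset.sum_attach s]
    have h1 : ∑ x ∈ t, w x • (x : Fin n → ℝ) = ∑ x ∈ s.attach, if x ∈ t then w x • (x : Fin n → ℝ) else 0 := by
      rw [← Finset.sum_filter]
      apply Finset.sum_congr _ fun _ _ => rfl
      ext x
      simp
    rw [h1]
    apply Finset.sum_congr rfl
    intro x _
    simp only [ha, dif_pos x.2]
    by_cases hx : x ∈ t
    · simp [hx]
    · simp [hx]
  set u := toW s (fun v => max (a v) 0) with hu1
  set u' := toW s (fun v => max (-a v) 0) with hu2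
  have hW : IsW u := cv_w s _ fun v _ => le_max_right _ _
  have hW' : IsW u' := cv_w s _ fun v _ => le_max_right _ _
  have hC : Cn (supp u) := hm _ _ (fun i j h => (cv_supp s _ i j h).1) hc
  have hC' : Cn (supp u') := hm _ _ (fun i j h => (cv_supp s _ i j h).1) hc
  have hdeg : ∀ i, deg u i = deg u' i := by
    intro i
    rw [hu1, hu2, cv_deg s hs, cv_deg s hs]
    have h1 : ∑ v ∈ s, (max (a v) 0) • v = ∑ v ∈ s, (max (-a v) 0) • v := by
      rw [← sub_eq_zero, ← Finset.sum_sub_distrib, ← hsum]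
      apply Finset.sum_congr rfl
      intro v _
      rw [← sub_smul]
      congr 1
      rcases le_total (a v) 0 with h | h
      · rw [max_eq_right h, max_eq_left (by linarith)]
        ring
      · rw [max_eq_left h, max_eq_right (by linarith)]
        ring
    rw [h1]
  have key := hu u u' hW hW' hC hC' hdeg
  obtain ⟨i, j, hij, hv⟩ := hs e.1 e.2
  have hmem : ind {i, j} ∈ s := hv ▸ e.2
  have h2 := key i j
  rw [hu1, hu2] at h2
  simp only [toW] at h2
  rw [if_pos ⟨hij, hmem⟩, if_pos ⟨hij, hmem⟩] at h2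
  have h3 : a (ind {i, j}) = 0 := by
    rcases le_total (a (ind {i, j})) 0 with h | h
    · rw [max_eq_right h, max_eq_left (by linarith)] at h2
      linarith
    · rw [max_eq_left h, max_eq_right (by linarith)] at h2
      exact h2
  have h4 : a e.1 = w e := by
    simp only [ha, dif_pos e.2]
    rw [if_pos he]
  rw [← h4, hv]
  exact h3

end Pool.Agent.Lib.HyC
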