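import Pool.Agent.Lib.HyC.Bs

/-!
# HyC, row BF: facts on type B with centre `i`

PROOF IN WORDS. `bf_zero`: `v j k > 0` would contradict the first part of `BTyp`. `bf_out`: in the sum `out C v z`
only the term `v z i` can be nonzero (`Finset.sum_eq_single i`; `v z z = 0`). `bf_mate`: all outer pairs
of `z` have weight zero (`bf_zero`; the other index is not `i` as it is in another class).
`bf_sum`: `out C v i = ∑ v i z` over the `z` outside the class of `i`, and `v i z = out C v z`.
-/

set_option autoImplicit false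

namespace Pool.Agent.Lib.HyC

open Pool.Agent.Lib.HyS Finset

variable {n m : ℕ}

theorem bf_zero (C : Comp n m) {v : Fin n → Fin n → ℝ} (hv : IsW v) {i : Fin n}
    (hB : BTyp C i (supp v)) {j k : Fin n} (hjk : C.π j ≠ C.π k) (hj : j ≠ i) (hk : k ≠ i) :
    v j k = 0 := by
  by_contra h
  have h0 : 0 < v j k := lt_of_le_of_ne (hv.nn j k) (Ne.symm h)
  rcases hB.1 j k h0 with h1 | h1 | h1
  · exact hjk h1
  · exact hj h1
  · exact hk h1

theorem bf_out (C : Comp n m) {v : Fin n → Fin n → ℝ} (hv : IsW v) {i : Fin n}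
    (hB : BTyp C i (supp v)) {z : Fin n} (hz : C.π z ≠ C.π i) : out C v z = v i z := by
  have hzi : z ≠ i := fun h => hz (by rw [h])
  rw [out, Finset.sum_eq_single i, hv.sym z i]
  · intro j hj hji
    exact bf_zero C hv hB (fun h => (Finset.mem_filter.1 hj).2 h.symm) hzi hji
  · intro h
    exact absurd (Finset.mem_filter.2 ⟨Finset.mem_univ i, fun h' => hz h'.symm⟩) h

theorem bf_mate (C : Comp n m) {v : Fin n → Fin n → ℝ} (hv : IsW v) {i : Fin n}
    (hB : BTyp C i (supp v)) {z : Fin n} (hz : z ≠ i) (h : C.π z = C.π i) : out C v z = 0 := by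
  rw [out]
  refine Finset.sum_eq_zero fun j hj => ?_
  have h1 := (Finset.mem_filter.1 hj).2
  exact bf_zero C hv hB (fun h' => h1 h'.symm) hz (fun h' => h1 (by rw [h', h]))

theorem bf_sum (C : Comp n m) {v : Fin n → Fin n → ℝ} (hv : IsW v) {i : Fin n}
    (hB : BTyp C i (supp v)) :
    out C v i = ∑ z ∈ univ.filter (fun z => C.π z ≠ C.π i), out C v z := by
  rw [out]
  refine Finset.sum_congr rfl fun z hz => ?_
  exact (bf_out C hv hB (Finset.mem_filter.1 hz).2).symm

end Pool.Agent.Lib.HyC
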