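import Pool.Agent.Lib.HyC.Defs

/-!
# HyC, row Bs: the basic facts on inner and outer weights

PROOF IN WORDS. `deg_split`: `Finset.sum_filter_add_sum_filter_not`. `inn_pair`: in the sum over
the class of `i` only `j` contributes: the class is `{i, j}` by `fib` (three different elements
are impossible), and `u i i = 0` (`Finset.sum_eq_single j`). `inn_single`: all terms are `u i i`.
`out_le`: for every `z` outside the class of `i`, `u i z = u z i ≤ out C u z` (a single nonnegative
term, `Finset.single_le_sum`); sum over `z`. `out_eq`: let `j, k` be in different classes, both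
different from `i`. One of them, say `j` after exchanging the roles (`u j k = u k j`), is not in the
class of `i`. Then `out C u j ≥ u j i + u j k` (two different terms, `k ≠ i`), and
`out C u z ≥ u z i` for the other `z`, so the sum over all `z` outside the class of `i` is at least
`out C u i + u j k`; with the hypothesis `u j k ≤ 0`.
-/

set_option autoImplicit false

namespace Pool.Agent.Lib.HyC

open Pool.Agent.Lib.HyS Finset

variable {n m : ℕ}

theorem deg_split (C : Comp n m) (u : Fin n → Fin n → ℝ) (i : Fin n) :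
    deg u i = inn C u i + out C u i := by
  unfold deg inn out
  exact (Finset.sum_filter_add_sum_filter_not univ (fun j => C.π j = C.π i) (fun j => u i j)).symm

theorem inn_pair (C : Comp n m) {u : Fin n → Fin n → ℝ} (hu : IsW u) {i j : Fin n} (hij : i ≠ j)
    (h : C.π i = C.π j) : inn C u i = u i j := by
  unfold inn
  refine Finset.sum_eq_single j (fun b hb hbj => ?_) (fun hj => ?_)
  · rw [Finset.mem_filter] at hb
    rcases C.fib i j b h (h.symm.trans hb.2.symm) with h1 | h1 | h1
    · exact absurd h1 hij
    · exact absurd h1.symm hbj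
    · rw [← h1]
      exact hu.dg i
  · exact (hj (Finset.mem_filter.2 ⟨Finset.mem_univ _, h.symm⟩)).elim

theorem inn_single (C : Comp n m) {u : Fin n → Fin n → ℝ} (hu : IsW u) {i : Fin n}
    (h : ∀ j, C.π j = C.π i → j = i) : inn C u i = 0 := by
  unfold inn
  refine Finset.sum_eq_zero fun b hb => ?_
  rw [Finset.mem_filter] at hb
  rw [h b hb.2]
  exact hu.dg i

theorem inn_nonneg (C : Comp n m) {u : Fin n → Fin n → ℝ} (hu : IsW u) (i : Fin n) :
    0 ≤ inn C u i :=
  Finset.sum_nonneg fun b _ => hu.nn i b

theorem out_nonneg (C : Comp n m) {u : Fin n → Fin n → ℝ} (hu : IsW u) (i : Fin n) :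
    0 ≤ out C u i :=
  Finset.sum_nonneg fun b _ => hu.nn i b

theorem le_out (C : Comp n m) {u : Fin n → Fin n → ℝ} (hu : IsW u) (i j : Fin n)
    (h : C.π j ≠ C.π i) : u i j ≤ out C u i := by
  unfold out
  exact Finset.single_le_sum (f := fun j => u i j) (fun b _ => hu.nn i b)
    (Finset.mem_filter.2 ⟨Finset.mem_univ j, h⟩)

theorem out_zero (C : Comp n m) {u : Fin n → Fin n → ℝ} (hu : IsW u) (i : Fin n)
    (h : ∀ j, C.π i ≠ C.π j → ¬ supp u i j) : out C u i = 0 := by
  unfold out
  refine Finset.sum_eq_zero fun b hb => ?_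
  rw [Finset.mem_filter] at hb
  have h1 := h b fun e => hb.2 e.symm
  unfold supp at h1
  exact le_antisymm (not_lt.1 h1) (hu.nn i b)

theorem out_le (C : Comp n m) {u : Fin n → Fin n → ℝ} (hu : IsW u) (i : Fin n) :
    out C u i ≤ ∑ z ∈ univ.filter (fun z => C.π z ≠ C.π i), out C u z := by
  conv_lhs => unfold out
  refine Finset.sum_le_sum fun z hz => ?_
  rw [Finset.mem_filter] at hz
  rw [hu.sym i z]
  exact le_out C hu z i fun e => hz.2 e.symm

private theorem out_eq_aux (C : Comp n m) {u : Fin n → Fin n → ℝ} (hu : IsW u) (i : Fin n)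
    (h : ∑ z ∈ univ.filter (fun z => C.π z ≠ C.π i), out C u z ≤ out C u i) (j k : Fin n)
    (hjk : C.π j ≠ C.π k) (hji : C.π j ≠ C.π i) (hk : k ≠ i) : u j k = 0 := by
  by_contra hne
  have hpos : 0 < u j k := lt_of_le_of_ne (hu.nn j k) (Ne.symm hne)
  have h1 : u j i + u j k ≤ out C u j := by
    have hs : ({i, k} : Finset (Fin n)) ⊆ univ.filter (fun z => C.π z ≠ C.π j) := by
      intro z hz
      rw [Finset.mem_insert, Finset.mem_singleton] at hz
      rw [Finset.mem_filter]
      refine ⟨Finset.mem_univ _, ?_⟩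
      rcases hz with rfl | rfl
      · exact fun e => hji e.symm
      · exact fun e => hjk e.symm
    have h2 := Finset.sum_le_sum_of_subset_of_nonneg (f := fun z => u j z) hs
      fun b _ _ => hu.nn j b
    rw [Finset.sum_pair (Ne.symm hk)] at h2
    exact h2
  have h3 : out C u i < ∑ z ∈ univ.filter (fun z => C.π z ≠ C.π i), out C u z := by
    conv_lhs => unfold out
    refine Finset.sum_lt_sum (fun z hz => ?_) ⟨j, Finset.mem_filter.2 ⟨Finset.mem_univ _, hji⟩, ?_⟩
    · rw [Finset.mem_filter] at hz
      rw [hu.sym i z]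
      exact le_out C hu z i fun e => hz.2 e.symm
    · rw [hu.sym i j]
      linarith
  exact absurd h (not_le.2 h3)

theorem out_eq (C : Comp n m) {u : Fin n → Fin n → ℝ} (hu : IsW u) (i : Fin n)
    (h : ∑ z ∈ univ.filter (fun z => C.π z ≠ C.π i), out C u z ≤ out C u i) (j k : Fin n)
    (hjk : C.π j ≠ C.π k) (hj : j ≠ i) (hk : k ≠ i) : u j k = 0 := by
  by_cases hji : C.π j = C.π i
  · rw [hu.sym j k]
    exact out_eq_aux C hu i h k j hjk.symm (fun e => hjk (hji.trans e.symm)) hj
  · exact out_eq_aux C hu i h j k hjk hji hk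

end Pool.Agent.Lib.HyC
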