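import Pool.Agent.Lib.HyC.Bs
import Pool.Agent.Lib.HyC.ET

/-!
# HyC, row EA: existence, type A

PROOF IN WORDS. `rep p` is the index of the class `p` with the larger coordinate. Let `s p` be the sum of `x` over the
class `p`, `y p = 2 * x (rep p) - s p` and `μ p = s p - x (rep p)`: if the class is `{a}` then `y p = x a`,
`μ p = 0`; if it is `{rep p, b}` then `y p = x (rep p) - x b ≥ 0`, `μ p = x b ≥ 0`. Let `w` be the
weights from `ex_T` for `y`. Put `u i j = μ (π i)` if `i ≠ j` and `π i = π j`; `u i j = w (π i) (π j)` if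
`π i ≠ π j`, `i = rep (π i)` and `j = rep (π j)`; and `0` otherwise. Degree of `i`: inner part: `μ (π i)` if
`i` has a mate, otherwise `0` (also `μ = 0` then); outer part: `0` if `i ≠ rep (π i)`, and
`∑ q ≠ π i, w (π i) q = deg w (π i) = y (π i)` if `i = rep (π i)` (the sum over the `j = rep q`,
injectivity of `rep`; `w p p = 0`). If `i = rep p`: `μ p + y p = x i`; otherwise `i = b`: `μ p = x b`.
Transversality: outer pairs of positive weight consist of representatives. `F` is the face of `ex_T`.
-/

set_option autoImplicit false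

namespace Pool.Agent.Lib.HyC

open Pool.Agent.Lib.HyS Finset

variable {n m : ℕ}

private theorem ea_fib (C : Comp n m) (x : Fin n → ℝ) (rep : Fin m → Fin n) (hrep : ∀ p, C.π (rep p) = p) (p : Fin m) :
    ((∀ j, C.π j = p → j = rep p) ∧ ∑ i ∈ univ.filter (fun i => C.π i = p), x i = x (rep p)) ∨
      ∃ b, b ≠ rep p ∧ C.π b = p ∧ (∀ j, C.π j = p → j = rep p ∨ j = b) ∧
        ∑ i ∈ univ.filter (fun i => C.π i = p), x i = x (rep p) + x b := by
  classical
  by_cases h : ∃ b, b ≠ rep p ∧ C.π b = p
  · right
    obtain ⟨b, hb1, hb2⟩ := h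
    have h1 : ∀ j, C.π j = p → j = rep p ∨ j = b := by
      intro j hj
      rcases C.fib (rep p) j b (by rw [hrep, hj]) (by rw [hj, hb2]) with h2 | h2 | h2
      · exact Or.inl h2.symm
      · exact Or.inr h2
      · exact absurd h2.symm hb1
    refine ⟨b, hb1, hb2, h1, ?_⟩
    have h2 : univ.filter (fun i => C.π i = p) = {rep p, b} := by
      ext j
      rw [mem_filter, mem_insert, mem_singleton]
      constructor
      · rintro ⟨-, hj⟩
        exact h1 j hj
      · rintro (rfl | rfl)
        · exact ⟨mem_univ _, hrep p⟩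
        · exact ⟨mem_univ _, hb2⟩
    rw [h2, sum_pair (Ne.symm hb1)]
  · left
    push Not at h
    have h1 : ∀ j, C.π j = p → j = rep p := by
      intro j hj
      by_contra hne
      exact h j hne hj
    refine ⟨h1, ?_⟩
    have h2 : univ.filter (fun i => C.π i = p) = {rep p} := by
      ext j
      rw [mem_filter, mem_singleton]
      constructor
      · rintro ⟨-, hj⟩
        exact h1 j hj
      · rintro rfl
        exact ⟨mem_univ _, hrep p⟩
    rw [h2, sum_singleton]

theorem ex_A (C : Comp n m) (T : LatticeTriangulation 2 m) (x : Fin n → ℝ) (hx : ∀ i, 0 ≤ x i)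
    (rep : Fin m → Fin n) (hrep : ∀ p, C.π (rep p) = p) (hmax : ∀ i, x i ≤ x (rep (C.π i)))
    (hA : ∀ p, 2 * (2 * x (rep p) - ∑ i ∈ univ.filter (fun i => C.π i = p), x i) ≤
      ∑ q, (2 * x (rep q) - ∑ i ∈ univ.filter (fun i => C.π i = q), x i)) :
    ∃ u : Fin n → Fin n → ℝ, IsW u ∧ ATyp C T (supp u) ∧ ∀ i, deg u i = x i := by
  classical
  set s : Fin m → ℝ := fun p => ∑ i ∈ univ.filter (fun i => C.π i = p), x i with hs
  have hy : ∀ p, 0 ≤ 2 * x (rep p) - s p := by
    intro p
    rcases ea_fib C x rep hrep p with ⟨-, h⟩ | ⟨b, -, hb2, -, h⟩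
    · have h1 : s p = x (rep p) := h
      have := hx (rep p)
      linarith
    · have h1 : s p = x (rep p) + x b := h
      have h2 := hmax b
      rw [hb2] at h2
      linarith
  have hμ : ∀ p, 0 ≤ s p - x (rep p) := by
    intro p
    rcases ea_fib C x rep hrep p with ⟨-, h⟩ | ⟨b, -, hb2, -, h⟩
    · have h1 : s p = x (rep p) := h
      linarith
    · have h1 : s p = x (rep p) + x b := h
      have h2 := hx b
      linarith
  obtain ⟨w, hw, hwd, F, hF, hwF⟩ := ex_T T (fun p => 2 * x (rep p) - s p) hy hA
  let u : Fin n → Fin n → ℝ := fun i j =>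
    if i = j then 0 else if C.π i = C.π j then s (C.π i) - x (rep (C.π i)) else
      if i = rep (C.π i) ∧ j = rep (C.π j) then w (C.π i) (C.π j) else 0
  have hu : IsW u := by
    refine ⟨?_, ?_, ?_⟩
    · intro i j
      show 0 ≤ (if i = j then 0 else if C.π i = C.π j then s (C.π i) - x (rep (C.π i)) else
        if i = rep (C.π i) ∧ j = rep (C.π j) then w (C.π i) (C.π j) else 0)
      split_ifs
      · exact le_rfl
      · exact hμ _
      · exact hw.nn _ _
      · exact le_rfl
    · intro i j
      show (if i = j then 0 else if C.π i = C.π j then s (C.π i) - x (rep (C.π i)) else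
        if i = rep (C.π i) ∧ j = rep (C.π j) then w (C.π i) (C.π j) else 0) =
        (if j = i then 0 else if C.π j = C.π i then s (C.π j) - x (rep (C.π j)) else
        if j = rep (C.π j) ∧ i = rep (C.π i) then w (C.π j) (C.π i) else 0)
      by_cases h1 : i = j
      · rw [if_pos h1, if_pos h1.symm]
      · rw [if_neg h1, if_neg (Ne.symm h1)]
        by_cases h2 : C.π i = C.π j
        · rw [if_pos h2, if_pos h2.symm, h2]
        · rw [if_neg h2, if_neg (Ne.symm h2)]
          by_cases h3 : i = rep (C.π i) ∧ j = rep (C.π j)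
          · rw [if_pos h3, if_pos h3.symm]
            exact hw.sym _ _
          · rw [if_neg h3, if_neg fun h4 => h3 h4.symm]
    · intro i
      show (if i = i then 0 else if C.π i = C.π i then s (C.π i) - x (rep (C.π i)) else
        if i = rep (C.π i) ∧ i = rep (C.π i) then w (C.π i) (C.π i) else 0) = 0
      rw [if_pos rfl]
  have hout : ∀ i j, C.π i ≠ C.π j → u i j = if i = rep (C.π i) ∧ j = rep (C.π j) then w (C.π i) (C.π j) else 0 := by
    intro i j h
    have h1 : i ≠ j := fun h2 => h (by rw [h2])
    show (if i = j then 0 else if C.π i = C.π j then s (C.π i) - x (rep (C.π i)) else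
      if i = rep (C.π i) ∧ j = rep (C.π j) then w (C.π i) (C.π j) else 0) = _
    rw [if_neg h1, if_neg h]
  have hpos : ∀ i j, supp u i j → C.π i ≠ C.π j → i = rep (C.π i) ∧ j = rep (C.π j) ∧ 0 < w (C.π i) (C.π j) := by
    intro i j h1 h2
    have h3 : 0 < u i j := h1
    rw [hout i j h2] at h3
    by_cases h4 : i = rep (C.π i) ∧ j = rep (C.π j)
    · rw [if_pos h4] at h3
      exact ⟨h4.1, h4.2, h3⟩
    · rw [if_neg h4] at h3
      exact absurd h3 (lt_irrefl _)
  refine ⟨u, hu, ⟨?_, F, hF, ?_⟩, ?_⟩
  · intro i j k l h1 h2 h3 h4 h5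
    have e1 := (hpos i j h1 h3).1
    have e2 := (hpos k l h2 h4).1
    rw [e1, e2, h5]
  · intro i j h1 h2
    exact hwF _ _ (hpos i j h1 h2).2.2
  · intro i
    rw [deg_split C u i]
    have hrinj : Function.Injective rep := fun p q h => by rw [← hrep p, ← hrep q, h]
    have hinn : inn C u i = s (C.π i) - x (rep (C.π i)) := by
      by_cases h : ∃ j, j ≠ i ∧ C.π j = C.π i
      · obtain ⟨j, hj1, hj2⟩ := h
        rw [inn_pair C hu (Ne.symm hj1) hj2.symm]
        show (if i = j then 0 else if C.π i = C.π j then s (C.π i) - x (rep (C.π i)) else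
          if i = rep (C.π i) ∧ j = rep (C.π j) then w (C.π i) (C.π j) else 0) = _
        rw [if_neg (Ne.symm hj1), if_pos hj2.symm]
      · push Not at h
        have h1 : ∀ j, C.π j = C.π i → j = i := by
          intro j hj
          by_contra hne
          exact h j hne hj
        rw [inn_single C hu h1]
        rcases ea_fib C x rep hrep (C.π i) with ⟨-, h2⟩ | ⟨b, hb1, hb2, -, -⟩
        · have h3 : s (C.π i) = x (rep (C.π i)) := h2
          rw [h3, sub_self]
        · exact absurd ((h1 b hb2).trans (h1 (rep (C.π i)) (hrep _)).symm) hb1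
    by_cases hi : i = rep (C.π i)
    · have ho : out C u i = 2 * x (rep (C.π i)) - s (C.π i) := by
        rw [← hwd (C.π i)]
        unfold out deg
        rw [sum_filter]
        symm
        refine Fintype.sum_of_injective rep hrinj _ _ ?_ ?_
        · intro j hj
          by_cases h1 : C.π j ≠ C.π i
          · rw [if_pos h1, hout i j (Ne.symm h1), if_neg]
            rintro ⟨-, h2⟩
            exact hj ⟨C.π j, h2.symm⟩
          · rw [if_neg h1]
        · intro q
          by_cases h1 : C.π (rep q) ≠ C.π i
          · rw [if_pos h1, hout i (rep q) (Ne.symm h1), if_pos ⟨hi, by rw [hrep]⟩, hrep]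
          · rw [if_neg h1]
            have h2 : q = C.π i := by
              rw [← hrep q]
              exact not_not.1 h1
            rw [h2]
            exact hw.dg _
      rw [hinn, ho, ← hi]
      ring
    · have ho : out C u i = 0 := by
        unfold out
        refine sum_eq_zero fun j hj => ?_
        rw [mem_filter] at hj
        rw [hout i j (Ne.symm hj.2), if_neg fun h => hi h.1]
      rw [hinn, ho, add_zero]
      rcases ea_fib C x rep hrep (C.π i) with ⟨h1, -⟩ | ⟨b, hb1, hb2, h1, h2⟩
      · exact absurd (h1 i rfl) hi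
      · have h3 : s (C.π i) = x (rep (C.π i)) + x b := h2
        rcases h1 i rfl with h4 | h4
        · exact absurd h4 hi
        · rw [h3, ← h4]
          ring

end Pool.Agent.Lib.HyC
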