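import Pool.Agent.Lib.HyC.Defs

/-!
# HyC, row Fil: greedy filling (only real numbers)

PROOF IN WORDS. Let `s p = ∑ q with ρ q < ρ p, μ q` and for real `c` let `f c = ∑ p, min (μ p) (max 0 (c - s p))`, a
continuous function of `c`. `f 0 = 0` (`s p ≥ 0`), and for `C = ∑ μ` one has `C - s p ≥ μ p` (the sum
over the `q` with `ρ q < ρ p` and `p` itself is at most the whole sum), so `f C = ∑ μ`. By the
intermediate value theorem (`intermediate_value_Icc`) there is `c` with `f c = τ`. Let
`w p = min (μ p) (max 0 (c - s p))`. If `ρ p < ρ q` and `w q ≠ 0` then `c > s q ≥ s p + μ p`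
(`{r | ρ r < ρ p} ∪ {p} ⊆ {r | ρ r < ρ q}`), so `w p = μ p`.
-/

set_option autoImplicit false

namespace Pool.Agent.Lib.HyC

open Pool.Agent.Lib.HyS Finset

variable {n m : ℕ}

theorem fill (r : Fin m → ℕ) (μ : Fin m → ℝ) (hμ : ∀ p, 0 ≤ μ p)
    (τ : ℝ) (h0 : 0 ≤ τ) (h1 : τ ≤ ∑ p, μ p) :
    ∃ w : Fin m → ℝ, (∀ p, 0 ≤ w p ∧ w p ≤ μ p) ∧ ∑ p, w p = τ ∧
      ∀ p q, r p < r q → w p = μ p ∨ w q = 0 := by
  set s : Fin m → ℝ := fun p => ∑ q ∈ univ.filter (fun q => r q < r p), μ q with hs
  set f : ℝ → ℝ := fun c => ∑ p, min (μ p) (max 0 (c - s p)) with hf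
  have hs0 : ∀ p, 0 ≤ s p := fun p => Finset.sum_nonneg fun q _ => hμ q
  have hstep : ∀ (p : Fin m) (A : Finset (Fin m)), p ∈ A → (∀ q, r q < r p → q ∈ A) → s p + μ p ≤ ∑ q ∈ A, μ q := by
    intro p A hp hA
    have hnp : p ∉ univ.filter (fun q => r q < r p) := by simp
    have h := Finset.sum_le_sum_of_subset_of_nonneg (s := insert p (univ.filter (fun q => r q < r p))) (t := A)
      (f := μ) (by
        intro q hq
        rcases Finset.mem_insert.1 hq with h | h
        · rw [h]
          exact hp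
        · exact hA q (Finset.mem_filter.1 h).2) (fun i _ _ => hμ i)
    rw [Finset.sum_insert hnp] at h
    simp only [hs]
    linarith
  have hcont : Continuous f := by
    apply continuous_finsetSum
    intro p _
    exact continuous_const.min (continuous_const.max (continuous_id.sub continuous_const))
  have f0 : f 0 = 0 := by
    simp only [hf]
    apply Finset.sum_eq_zero
    intro p _
    rw [max_eq_left (by linarith [hs0 p])]
    exact min_eq_right (hμ p)
  have f1 : f (∑ p, μ p) = ∑ p, μ p := by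
    simp only [hf]
    apply Finset.sum_congr rfl
    intro p _
    have h := hstep p univ (Finset.mem_univ p) (fun q _ => Finset.mem_univ q)
    exact min_eq_left (le_trans (by linarith) (le_max_right _ _))
  have hC : (0 : ℝ) ≤ ∑ p, μ p := Finset.sum_nonneg fun q _ => hμ q
  obtain ⟨c, -, hc⟩ := intermediate_value_Icc hC hcont.continuousOn (show τ ∈ Set.Icc (f 0) (f (∑ p, μ p)) by
    rw [f0, f1]
    exact ⟨h0, h1⟩)
  refine ⟨fun p => min (μ p) (max 0 (c - s p)), fun p => ⟨le_min (hμ p) (le_max_left _ _), min_le_left _ _⟩, hc, ?_⟩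
  intro p q hpq
  rcases le_or_gt (c - s q) 0 with h | h
  · right
    show min (μ q) (max 0 (c - s q)) = 0
    rw [max_eq_left h]
    exact min_eq_right (hμ q)
  · left
    show min (μ p) (max 0 (c - s p)) = μ p
    have h2 := hstep p (univ.filter (fun t => r t < r q)) (by simpa using hpq) (fun t ht => by
      rw [Finset.mem_filter]
      exact ⟨Finset.mem_univ t, lt_trans ht hpq⟩)
    have h3 : s p + μ p ≤ s q := h2
    exact min_eq_left (le_trans (by linarith) (le_max_right _ _))

end Pool.Agent.Lib.HyC
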