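import Pool.Agent.Lib.HyC.Bs
import Pool.Agent.Lib.HyC.Fil

/-!
# HyC, row EB: existence, type B

PROOF IN WORDS. `s p`, `μ p = s p - x (rep p)` as in row EA: `μ p = 0` for a class of one element and
`μ p = x b ≤ x (rep p)` for the class `{rep p, b}`. Let `c = rep q`. Let `μ' p = μ p` for `p ≠ q` and
`μ' q = 0`, and `τ = 1 - x c ≥ 0`. The hypothesis `hB` says, with `∑ p, s p = 2`:
`2 ∑ p, x (rep p) - 2 < 4 x c - 2 s q`; as `∑ p, μ p = 2 - ∑ p, x (rep p)` this is
`1 - x c < ∑ p, μ p - μ q`, so `τ ≤ ∑ μ'`. Let `w` be the greedy filling (`fill`, `r = ρ c`). Put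
`u i j = w (π i)` if `i ≠ j`, `π i = π j ≠ q`; `u i j = μ q` if `i ≠ j`, `π i = π j = q`;
`u c z = u z c = x z - w (π z)` for `π z ≠ q`; all others `0`. These are nonnegative as
`w p ≤ μ p ≤ x z` for every `z` of a class of two elements, and `w p ≤ μ p = 0` for the others.
Degrees: `z` outside the class `q`: inner part `w (π z)` (zero if `z` is alone), outer part
`x z - w (π z)`. The mate of `c`: `μ q = x c'`. `c` itself: `μ q + ∑ z, π z ≠ q, (x z - w (π z))
= μ q + (2 - s q) - 2 τ` (every class with `w p ≠ 0` has two elements, so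
`∑ z, π z ≠ q, w (π z) = 2 ∑ w = 2 τ`, `w q = 0`) `= μ q + 2 - s q - 2 + 2 x c = x c` as
`s q = x c + μ q`. Type B: outer pairs of positive weight contain `c`. If `u c b > 0` and `u c b' > 0`
for `b ≠ b'` in a class `p ≠ q` then `w p < x b` and `w p < x b'`, so `w p < μ p` (`μ p` is one of
them), so by the greedy property `w p' = 0` for `ρ c p < ρ c p'`, and `u d d' = w p' = 0` there.
-/

set_option autoImplicit false

namespace Pool.Agent.Lib.HyC

open Pool.Agent.Lib.HyS Finset

variable {n m : ℕ}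

private theorem cls (C : Comp n m) (rep : Fin m → Fin n) (hrep : ∀ p, C.π (rep p) = p) (p : Fin m) :
    univ.filter (fun i => C.π i = p) = {rep p} ∨
    ∃ b, b ≠ rep p ∧ C.π b = p ∧ univ.filter (fun i => C.π i = p) = {rep p, b} := by
  by_cases h : ∃ b, b ≠ rep p ∧ C.π b = p
  · obtain ⟨b, hb1, hb2⟩ := h
    right
    refine ⟨b, hb1, hb2, ?_⟩
    ext i
    simp only [mem_filter, mem_univ, true_and, mem_insert, mem_singleton]
    constructor
    · intro hi
      rcases C.fib i (rep p) b (by rw [hi, hrep]) (by rw [hrep, hb2]) with h1 | h1 | h1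
      · left; exact h1
      · exact absurd h1.symm hb1
      · right; exact h1
    · intro hi
      rcases hi with hi | hi
      · rw [hi]; exact hrep p
      · rw [hi]; exact hb2
  · push Not at h
    left
    ext i
    simp only [mem_filter, mem_univ, true_and, mem_singleton]
    constructor
    · intro hi
      by_contra hne
      exact h i hne hi
    · intro hi
      rw [hi]; exact hrep p

private noncomputable def mu (C : Comp n m) (x : Fin n → ℝ) (rep : Fin m → Fin n) (p : Fin m) : ℝ :=
  ∑ i ∈ univ.filter (fun i => C.π i = p), x i - x (rep p)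

private theorem mu_mate (C : Comp n m) (x : Fin n → ℝ) (rep : Fin m → Fin n)
    (hrep : ∀ p, C.π (rep p) = p) (i : Fin n) (hi : i ≠ rep (C.π i)) : mu C x rep (C.π i) = x i := by
  have hmem : i ∈ univ.filter (fun j => C.π j = C.π i) := by
    rw [mem_filter]
    exact ⟨mem_univ i, rfl⟩
  rcases cls C rep hrep (C.π i) with h | ⟨b, hb1, hb2, h⟩
  · exfalso
    rw [h, mem_singleton] at hmem
    exact hi hmem
  · have hib : i = b := by
      rw [h, mem_insert, mem_singleton] at hmem
      rcases hmem with h1 | h1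
      · exact absurd h1 hi
      · exact h1
    unfold mu
    rw [h, sum_pair (Ne.symm hb1)]
    have h2 : x i = x b := by rw [← hib]
    rw [h2]
    ring

private theorem mu_alone (C : Comp n m) (x : Fin n → ℝ) (rep : Fin m → Fin n)
    (hrep : ∀ p, C.π (rep p) = p) (i : Fin n) (hi : ∀ j, C.π j = C.π i → j = i) :
    mu C x rep (C.π i) = 0 := by
  rcases cls C rep hrep (C.π i) with h | ⟨b, hb1, hb2, h⟩
  · unfold mu
    rw [h, sum_singleton, sub_self]
  · exfalso
    exact hb1 ((hi b hb2).trans (hi (rep (C.π i)) (hrep _)).symm)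

private theorem mu_nonneg (C : Comp n m) (x : Fin n → ℝ) (hx : ∀ i, 0 ≤ x i) (rep : Fin m → Fin n)
    (hrep : ∀ p, C.π (rep p) = p) (p : Fin m) : 0 ≤ mu C x rep p := by
  rcases cls C rep hrep p with h | ⟨b, hb1, hb2, h⟩
  · unfold mu
    rw [h, sum_singleton, sub_self]
  · unfold mu
    rw [h, sum_pair (Ne.symm hb1), add_sub_cancel_left]
    exact hx b

private theorem mu_le (C : Comp n m) (x : Fin n → ℝ) (hx : ∀ i, 0 ≤ x i) (rep : Fin m → Fin n)
    (hrep : ∀ p, C.π (rep p) = p) (hmax : ∀ i, x i ≤ x (rep (C.π i))) (i : Fin n) :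
    mu C x rep (C.π i) ≤ x i := by
  by_cases hi : i = rep (C.π i)
  · rcases cls C rep hrep (C.π i) with h | ⟨b, hb1, hb2, h⟩
    · unfold mu
      rw [h, sum_singleton, sub_self]
      exact hx i
    · unfold mu
      rw [h, sum_pair (Ne.symm hb1), add_sub_cancel_left]
      have h1 := hmax b
      rw [hb2, ← hi] at h1
      exact h1
  · exact le_of_eq (mu_mate C x rep hrep i hi)

private theorem card_mul (C : Comp n m) (x : Fin n → ℝ) (rep : Fin m → Fin n)
    (hrep : ∀ p, C.π (rep p) = p) (p : Fin m) (t : ℝ) (h0 : 0 ≤ t) (h1 : t ≤ mu C x rep p) :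
    ((univ.filter (fun i => C.π i = p)).card : ℝ) * t = 2 * t := by
  rcases cls C rep hrep p with h | ⟨b, hb1, hb2, h⟩
  · have h2 : mu C x rep p = 0 := by
      unfold mu
      rw [h, sum_singleton, sub_self]
    have h3 : t = 0 := le_antisymm (by rw [← h2]; exact h1) h0
    rw [h3, mul_zero, mul_zero]
  · rw [h, card_pair (Ne.symm hb1)]
    norm_num

private noncomputable def uu (C : Comp n m) (x : Fin n → ℝ) (c : Fin n) (v w : Fin m → ℝ) (i j : Fin n) : ℝ :=
  if C.π i = C.π j then (if i = j then 0 else v (C.π i))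
  else if i = c then x j - w (C.π j)
  else if j = c then x i - w (C.π i)
  else 0

private theorem uu_isW (C : Comp n m) (x : Fin n → ℝ) (c : Fin n) (v w : Fin m → ℝ)
    (hv : ∀ p, 0 ≤ v p) (hw : ∀ j, w (C.π j) ≤ x j) : IsW (uu C x c v w) := by
  refine ⟨?_, ?_, ?_⟩
  · intro i j
    unfold uu
    split_ifs
    · exact le_refl _
    · exact hv _
    · exact sub_nonneg.mpr (hw j)
    · exact sub_nonneg.mpr (hw i)
    · exact le_refl _
  · intro i j
    unfold uu
    by_cases h : C.π i = C.π j
    · rw [if_pos h, if_pos h.symm]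
      by_cases h2 : i = j
      · rw [if_pos h2, if_pos h2.symm]
      · rw [if_neg h2, if_neg (Ne.symm h2), h]
    · rw [if_neg h, if_neg (Ne.symm h)]
      by_cases hi : i = c
      · by_cases hj : j = c
        · exact absurd (by rw [hi, hj]) h
        · rw [if_pos hi, if_neg hj, if_pos hi]
      · by_cases hj : j = c
        · rw [if_neg hi, if_pos hj, if_pos hj]
        · rw [if_neg hi, if_neg hj, if_neg hj, if_neg hi]
  · intro i
    unfold uu
    rw [if_pos rfl, if_pos rfl]

private theorem uu_inn (C : Comp n m) (x : Fin n → ℝ) (c : Fin n) (v w : Fin m → ℝ)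
    (hv : ∀ p, 0 ≤ v p) (hw : ∀ j, w (C.π j) ≤ x j) (z : Fin n)
    (h0 : (∀ j, C.π j = C.π z → j = z) → v (C.π z) = 0) :
    inn C (uu C x c v w) z = v (C.π z) := by
  have hW := uu_isW C x c v w hv hw
  by_cases h : ∃ j, C.π j = C.π z ∧ j ≠ z
  · obtain ⟨j, hj1, hj2⟩ := h
    rw [inn_pair C hW (Ne.symm hj2) hj1.symm]
    unfold uu
    rw [if_pos hj1.symm, if_neg (Ne.symm hj2)]
  · have h1 : ∀ j, C.π j = C.π z → j = z := by
      intro j hj
      by_contra hne
      exact h ⟨j, hj, hne⟩
    rw [inn_single C hW h1, h0 h1]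

private theorem uu_out1 (C : Comp n m) (x : Fin n → ℝ) (c : Fin n) (v w : Fin m → ℝ) (z : Fin n)
    (hz : C.π z ≠ C.π c) : out C (uu C x c v w) z = x z - w (C.π z) := by
  have hzc : z ≠ c := fun h => hz (by rw [h])
  unfold out
  rw [Finset.sum_eq_single c]
  · unfold uu
    rw [if_neg hz, if_neg hzc, if_pos rfl]
  · intro j hj hjc
    have hj' := (mem_filter.mp hj).2
    unfold uu
    rw [if_neg (Ne.symm hj'), if_neg hzc, if_neg hjc]
  · intro h
    exfalso
    apply h
    rw [mem_filter]
    exact ⟨mem_univ c, Ne.symm hz⟩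

private theorem uu_out2 (C : Comp n m) (x : Fin n → ℝ) (c : Fin n) (v w : Fin m → ℝ) (z : Fin n)
    (hz : C.π z = C.π c) (hzc : z ≠ c) : out C (uu C x c v w) z = 0 := by
  unfold out
  refine Finset.sum_eq_zero ?_
  intro j hj
  have hj' := (mem_filter.mp hj).2
  have hjc : j ≠ c := fun h => hj' (by rw [h, hz])
  unfold uu
  rw [if_neg (Ne.symm hj'), if_neg hzc, if_neg hjc]

private theorem uu_out3 (C : Comp n m) (x : Fin n → ℝ) (c : Fin n) (v w : Fin m → ℝ) :
    out C (uu C x c v w) c = ∑ j ∈ univ.filter (fun j => C.π j ≠ C.π c), (x j - w (C.π j)) := by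
  unfold out
  refine Finset.sum_congr rfl ?_
  intro j hj
  have hj' := (mem_filter.mp hj).2
  unfold uu
  rw [if_neg (Ne.symm hj'), if_pos rfl]

private theorem sum_w (C : Comp n m) (x : Fin n → ℝ) (rep : Fin m → Fin n)
    (hrep : ∀ p, C.π (rep p) = p) (w : Fin m → ℝ) (q : Fin m) (hq : w q = 0) (h0 : ∀ p, 0 ≤ w p)
    (h1 : ∀ p, w p ≤ mu C x rep p) :
    ∑ j ∈ univ.filter (fun j => C.π j ≠ q), w (C.π j) = 2 * ∑ p, w p := by
  rw [Finset.sum_filter_of_ne (fun j _ hj => by
    intro h
    rw [h] at hj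
    exact hj hq)]
  rw [← Finset.sum_fiberwise univ C.π (fun j => w (C.π j)), Finset.mul_sum]
  refine Finset.sum_congr rfl ?_
  intro p _
  have h2 : ∑ i ∈ univ.filter (fun i => C.π i = p), w (C.π i) = ∑ i ∈ univ.filter (fun i => C.π i = p), w p := by
    refine Finset.sum_congr rfl ?_
    intro i hi
    rw [(mem_filter.mp hi).2]
  rw [h2, Finset.sum_const, nsmul_eq_mul]
  exact card_mul C x rep hrep p (w p) (h0 p) (h1 p)

theorem ex_B (C : Comp n m) (x : Fin n → ℝ) (hx : x ∈ hypersimplex 2 n)
    (rep : Fin m → Fin n) (hrep : ∀ p, C.π (rep p) = p) (hmax : ∀ i, x i ≤ x (rep (C.π i)))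
    (q : Fin m)
    (hB : ∑ p, (2 * x (rep p) - ∑ i ∈ univ.filter (fun i => C.π i = p), x i) <
      2 * (2 * x (rep q) - ∑ i ∈ univ.filter (fun i => C.π i = q), x i)) :
    ∃ u : Fin n → Fin n → ℝ, IsW u ∧ BTyp C (rep q) (supp u) ∧ ∀ i, deg u i = x i := by
  have hx0 : ∀ i, 0 ≤ x i := fun i => (hx.1 i).1
  have hs : ∑ i, x i = 2 := by
    have h := hx.2
    rw [h]
    norm_num
  have hsp : ∑ p, ∑ i ∈ univ.filter (fun i => C.π i = p), x i = 2 := by
    rw [Finset.sum_fiberwise, hs]
  have hM0 : ∀ p, 0 ≤ mu C x rep p := mu_nonneg C x hx0 rep hrep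
  have hMs : ∑ p, mu C x rep p = 2 - ∑ p, x (rep p) := by
    unfold mu
    rw [Finset.sum_sub_distrib, hsp]
  have hsq : ∑ i ∈ univ.filter (fun i => C.π i = q), x i = x (rep q) + mu C x rep q := by
    unfold mu
    ring
  have hlt : 1 - x (rep q) < ∑ p, mu C x rep p - mu C x rep q := by
    rw [Finset.sum_sub_distrib, ← Finset.mul_sum, hsp, hsq] at hB
    linarith
  have hM' : ∑ p, (if p = q then 0 else mu C x rep p) = ∑ p, mu C x rep p - mu C x rep q := by
    have h1 : ∀ p ∈ (univ : Finset (Fin m)), (if p = q then 0 else mu C x rep p) =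
        mu C x rep p - (if p = q then mu C x rep p else 0) := by
      intro p _
      split_ifs <;> ring
    rw [Finset.sum_congr rfl h1, Finset.sum_sub_distrib, Finset.sum_ite_eq' univ q, if_pos (mem_univ q)]
  obtain ⟨w, hw1, hw2, hw3⟩ := fill (C.ρ (rep q)) (fun p => if p = q then 0 else mu C x rep p)
    (fun p => by
      show 0 ≤ (if p = q then 0 else mu C x rep p)
      split_ifs
      · exact le_refl _
      · exact hM0 p)
    (1 - x (rep q)) (by linarith [(hx.1 (rep q)).2]) (by rw [hM']; exact hlt.le)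
  have hwq : w q = 0 := by
    have h := (hw1 q).2
    simp only [if_true] at h
    exact le_antisymm h (hw1 q).1
  have hwM : ∀ p, w p ≤ mu C x rep p := by
    intro p
    have h := (hw1 p).2
    by_cases hp : p = q
    · rw [hp, hwq]
      exact hM0 q
    · simp only [if_neg hp] at h
      exact h
  have hwx : ∀ j, w (C.π j) ≤ x j := fun j =>
    (hwM (C.π j)).trans (mu_le C x hx0 rep hrep hmax j)
  have hv : ∀ p, 0 ≤ (fun p => if p = q then mu C x rep q else w p) p := by
    intro p
    show 0 ≤ (if p = q then mu C x rep q else w p)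
    split_ifs
    · exact hM0 q
    · exact (hw1 p).1
  have hW := uu_isW C x (rep q) (fun p => if p = q then mu C x rep q else w p) w hv hwx
  have hinn : ∀ z, inn C (uu C x (rep q) (fun p => if p = q then mu C x rep q else w p) w) z =
      if C.π z = q then mu C x rep q else w (C.π z) := by
    intro z
    refine uu_inn C x (rep q) _ w hv hwx z ?_
    intro hz
    have h0 := mu_alone C x rep hrep z hz
    by_cases hp : C.π z = q
    · show (if C.π z = q then mu C x rep q else w (C.π z)) = 0
      rw [if_pos hp, ← hp]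
      exact h0
    · show (if C.π z = q then mu C x rep q else w (C.π z)) = 0
      rw [if_neg hp]
      refine le_antisymm ?_ (hw1 _).1
      rw [← h0]
      exact hwM _
  refine ⟨uu C x (rep q) (fun p => if p = q then mu C x rep q else w p) w, hW, ⟨?_, ?_⟩, ?_⟩
  · intro j k hjk
    unfold supp uu at hjk
    by_contra hne
    push Not at hne
    rw [if_neg hne.1, if_neg hne.2.1, if_neg hne.2.2] at hjk
    exact lt_irrefl _ hjk
  · intro b b' d d' hbb hpb hbq hdd hpd hdq hr hSb hSb' hS
    rw [hrep] at hbq hdq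
    have hb'q : C.π b' ≠ q := by rw [← hpb]; exact hbq
    unfold supp uu at hSb hSb' hS
    rw [hrep, if_neg (Ne.symm hbq), if_pos rfl] at hSb
    rw [hrep, if_neg (Ne.symm hb'q), if_pos rfl, ← hpb] at hSb'
    rw [if_pos hpd, if_neg hdd] at hS
    simp only [if_neg hdq] at hS
    have h1 := hw3 (C.π b) (C.π d) hr
    rcases h1 with h1 | h1
    · simp only [if_neg hbq] at h1
      by_cases hb : b = rep (C.π b)
      · have hb' : b' ≠ rep (C.π b') := by
          intro h
          rw [← hpb, ← hb] at h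
          exact hbb h.symm
        have h2 := mu_mate C x rep hrep b' hb'
        rw [← hpb] at h2
        linarith
      · have h2 := mu_mate C x rep hrep b hb
        linarith
    · linarith
  · intro z
    rw [deg_split C, hinn z]
    by_cases hz : C.π z = q
    · rw [if_pos hz]
      by_cases hzc : z = rep q
      · rw [hzc, uu_out3, hrep, Finset.sum_sub_distrib, sum_w C x rep hrep w q hwq (fun p => (hw1 p).1) hwM, hw2]
        have h1 := Finset.sum_filter_add_sum_filter_not univ (fun j => C.π j = q) x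
        rw [hs, hsq] at h1
        linarith
      · rw [uu_out2 C x (rep q) _ w z (by rw [hz, hrep]) hzc, add_zero, ← hz]
        exact mu_mate C x rep hrep z (by rw [hz]; exact hzc)
    · rw [if_neg hz, uu_out1 C x (rep q) _ w z (by rw [hrep]; exact hz)]
      ring

end Pool.Agent.Lib.HyC
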