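import Pool.Agent.Lib.HyC.Defs
import Pool.Agent.Lib.HyS.CarC

/-!
# HyC, row Iv2: `Can` is invariant

PROOF IN WORDS. From `hπ`: `π (σ.symm i) = τ.symm (π i)`; from `hρ`: `ρ (σ.symm i) (τ.symm p) = ρ i p`. Type A:
transversality by substitution (`σ.symm` is injective). The face: `F' = F.image (permute τ)`: if `F = ∅`
it is empty, otherwise `hT` gives a face `t` with `(t : Set _) = permute τ '' F`; and
`ind {π i, π j} = permute τ (ind {τ.symm (π i), τ.symm (π j)})` (`permute_ind`, `Finset.map_insert`). Type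
B with centre `i` becomes type B with centre `σ i`: substitute.
-/

set_option autoImplicit false

namespace Pool.Agent.Lib.HyC

open Pool.Agent.Lib.HyS Finset

variable {n m : ℕ}

theorem can_inv (C : Comp n m) (T : LatticeTriangulation 2 m) (σ : Equiv.Perm (Fin n))
    (τ : Equiv.Perm (Fin m)) (hπ : ∀ i, C.π (σ i) = τ (C.π i))
    (hρ : ∀ i p, C.ρ (σ i) (τ p) = C.ρ i p)
    (hT : ∀ s ∈ T.K.faces, ∃ t ∈ T.K.faces,
      (t : Set (Fin m → ℝ)) = permute τ '' (s : Set (Fin m → ℝ)))
    (S : Fin n → Fin n → Prop) (h : Can C T S) :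
    Can C T (fun i j => S (σ.symm i) (σ.symm j)) := by
  classical
  have a : ∀ i, C.π (σ.symm i) = τ.symm (C.π i) := by
    intro i
    rw [Equiv.eq_symm_apply, ← hπ, Equiv.apply_symm_apply]
  have c : ∀ i j, C.π (σ.symm i) = C.π (σ.symm j) ↔ C.π i = C.π j := by
    intro i j
    rw [a, a]
    exact τ.symm.injective.eq_iff
  rcases h with ⟨h1, F, hF, h2⟩ | ⟨i, h1, h2⟩
  · left
    refine ⟨?_, F.image (permute τ), ?_, ?_⟩
    · intro i j k l hij hkl nij nkl e
      have h3 := h1 _ _ _ _ hij hkl (fun h => nij ((c i j).1 h)) (fun h => nkl ((c k l).1 h)) ((c i k).2 e)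
      exact σ.symm.injective h3
    · rcases hF with rfl | hF
      · left
        rfl
      · right
        obtain ⟨t, ht, ht2⟩ := hT F hF
        have h3 : F.image (permute τ) = t := by
          apply Finset.coe_injective
          rw [Finset.coe_image, ht2]
        rw [h3]
        exact ht
    · intro i j hij nij
      have h3 := h2 _ _ hij (fun h => nij ((c i j).1 h))
      refine Finset.mem_image.2 ⟨_, h3, ?_⟩
      rw [permute_ind, Finset.map_insert, Finset.map_singleton, a, a]
      show ind {τ (τ.symm (C.π i)), τ (τ.symm (C.π j))} = ind {C.π i, C.π j}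
      rw [Equiv.apply_symm_apply, Equiv.apply_symm_apply]
  · right
    refine ⟨σ i, ?_, ?_⟩
    · intro j k hjk
      rcases h1 _ _ hjk with h3 | h3 | h3
      · exact Or.inl ((c j k).1 h3)
      · exact Or.inr (Or.inl ((Equiv.symm_apply_eq σ).1 h3))
      · exact Or.inr (Or.inr ((Equiv.symm_apply_eq σ).1 h3))
    · intro b b' d d' nb eb nbi nd ed ndi hlt s1 s2
      have e1 : σ.symm (σ i) = i := σ.symm_apply_apply i
      have r : ∀ p, C.ρ i (τ.symm p) = C.ρ (σ i) p := by
        intro p
        rw [← hρ, Equiv.apply_symm_apply]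
      simp only [e1] at s1 s2
      refine h2 (σ.symm b) (σ.symm b') (σ.symm d) (σ.symm d') (fun h => nb (σ.symm.injective h)) ((c b b').2 eb)
        ?_ (fun h => nd (σ.symm.injective h)) ((c d d').2 ed) ?_ ?_ s1 s2
      · intro h
        apply nbi
        have h4 : C.π (σ.symm b) = C.π (σ.symm (σ i)) := by rw [e1]; exact h
        exact (c b (σ i)).1 h4
      · intro h
        apply ndi
        have h4 : C.π (σ.symm d) = C.π (σ.symm (σ i)) := by rw [e1]; exact h
        exact (c d (σ i)).1 h4
      · rw [a, a, r, r]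
        exact hlt

end Pool.Agent.Lib.HyC
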