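import Pool.Agent.Lib.HyC.Defs

/-!
# HyC, row Rnk: an equivariant choice of orders

PROOF IN WORDS. Choose a representative `r i` of the orbit of `i` under `G`, constant on orbits (for instance
`r i` = the smallest element of `{σ i | σ ∈ G}`, or `Quotient.out` for `MulAction.orbitRel G (Fin n)`), and
for every `i` an element `g i ∈ G` with `g i (r i) = i`. By `hsur` choose `l p` with `π (l p) = p`. Put
`ρ i p = (π ((g i)⁻¹ (l p)) : ℕ)` (`Fin.val`). By `hcl` `π ((g i)⁻¹ a)` depends only on `π a`, so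
`ρ i (π j) = π ((g i)⁻¹ j)`. Injective: if `π ((g i)⁻¹ (l p)) = π ((g i)⁻¹ (l q))` apply `g i` (`hcl`).
Equivariance: `ρ (σ i) (π (σ j)) = π ((g (σ i))⁻¹ (σ j))`, and `κ = (g (σ i))⁻¹ * σ * g i ∈ G` fixes
`r i = r (σ i)`, so by `hst` `π (κ a) = π a` for all `a`; with `a = (g i)⁻¹ j`:
`π ((g (σ i))⁻¹ (σ j)) = π ((g i)⁻¹ j) = ρ i (π j)`.
-/

set_option autoImplicit false

namespace Pool.Agent.Lib.HyC

open Pool.Agent.Lib.HyS Finset

variable {n m : ℕ}

private theorem inv_app {α : Type} (σ : Equiv.Perm α) (x : α) : σ⁻¹ (σ x) = x := σ.symm_apply_apply x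

private theorem app_inv {α : Type} (σ : Equiv.Perm α) (x : α) : σ (σ⁻¹ x) = x := σ.apply_symm_apply x

theorem rank_exists (π : Fin n → Fin m) (hsur : Function.Surjective π)
    (G : Subgroup (Equiv.Perm (Fin n)))
    (hst : ∀ σ ∈ G, ∀ i, σ i = i → ∀ j, π (σ j) = π j)
    (hcl : ∀ σ ∈ G, ∀ i j, π i = π j → π (σ i) = π (σ j)) :
    ∃ ρ : Fin n → Fin m → ℕ, (∀ i, Function.Injective (ρ i)) ∧
      ∀ σ ∈ G, ∀ i j, ρ (σ i) (π (σ j)) = ρ i (π j) := by
  classical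
  let s : Setoid (Fin n) :=
    { r := fun i j => ∃ σ ∈ G, σ i = j
      iseqv :=
        { refl := fun i => ⟨1, G.one_mem, rfl⟩
          symm := by
            rintro i j ⟨σ, hσ, h⟩
            exact ⟨σ⁻¹, G.inv_mem hσ, by rw [← h, inv_app]⟩
          trans := by
            rintro i j k ⟨σ, hσ, h⟩ ⟨τ, hτ, h'⟩
            exact ⟨τ * σ, G.mul_mem hτ hσ, by rw [Equiv.Perm.mul_apply, h, h']⟩ } }
  obtain ⟨r, hr⟩ : ∃ r : Fin n → Fin n, ∀ i, r i = (Quotient.mk s i).out := ⟨_, fun _ => rfl⟩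
  have hr1 : ∀ i, ∃ σ ∈ G, σ (r i) = i := by
    intro i
    have h1 : Quotient.mk s (r i) = Quotient.mk s i := by
      rw [hr i]
      exact Quotient.out_eq (Quotient.mk s i)
    exact Quotient.exact h1
  have hrc : ∀ σ ∈ G, ∀ i, r (σ i) = r i := by
    intro σ hσ i
    have h1 : Quotient.mk s (σ i) = Quotient.mk s i :=
      Quotient.sound ⟨σ⁻¹, G.inv_mem hσ, by rw [inv_app]⟩
    rw [hr, hr, h1]
  choose g hgG hg using hr1
  choose l hl using hsur
  have key : ∀ i j, π ((g i)⁻¹ (l (π j))) = π ((g i)⁻¹ j) := fun i j =>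
    hcl (g i)⁻¹ (G.inv_mem (hgG i)) _ _ (hl (π j))
  refine ⟨fun i p => (π ((g i)⁻¹ (l p))).val, ?_, ?_⟩
  · intro i p q h
    have h1 : π ((g i)⁻¹ (l p)) = π ((g i)⁻¹ (l q)) := Fin.ext h
    have h2 := hcl (g i) (hgG i) _ _ h1
    rw [app_inv, app_inv, hl, hl] at h2
    exact h2
  · intro σ hσ i j
    have hκ : (g (σ i))⁻¹ * σ * g i ∈ G :=
      G.mul_mem (G.mul_mem (G.inv_mem (hgG (σ i))) hσ) (hgG i)
    have hfix : ((g (σ i))⁻¹ * σ * g i) (r i) = r i := by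
      have h1 : (g (σ i))⁻¹ (σ i) = r i := by
        rw [← hrc σ hσ i]
        have h3 := inv_app (g (σ i)) (r (σ i))
        rwa [hg (σ i)] at h3
      rw [Equiv.Perm.mul_apply, Equiv.Perm.mul_apply, hg i, h1]
    have h2 := hst _ hκ (r i) hfix ((g i)⁻¹ j)
    rw [Equiv.Perm.mul_apply, Equiv.Perm.mul_apply, app_inv] at h2
    show (π ((g (σ i))⁻¹ (l (π (σ j))))).val = (π ((g i)⁻¹ (l (π j)))).val
    rw [key, key, h2]

end Pool.Agent.Lib.HyC
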