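import Pool.Agent.Lib.HyC.Pm
import Pool.Agent.Lib.HyC.BF

/-!
# HyC, row UB: uniqueness, `u` transversal and `v` of type B with centre `i`

PROOF IN WORDS. (a) Class of `i`: if `i` has a mate `i'` (`i' ≠ i`, `π i' = π i`) then `out C v i' = 0` (`bf_mate`), so
`v i i' = deg v i'` (`deg_split`, `inn_pair`) and `deg v i ≥ v i i' = deg v i'` (`pair_le`), so
`u i i' = min (deg i) (deg i') = deg i' = v i i'` (`pair_min`). So `inn C u i = inn C v i` (if there is
no mate both are zero, `inn_single`) and `out C u i = out C v i`. (b) Let `z` be outside the class of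
`i`. `inn C v z ≤ inn C u z`: if `z` is alone both are zero, if `z'` is its mate, `v z z'` is at most both
degrees (`pair_le`) and `u z z'` is their minimum (`pair_min`). So `out C u z ≤ out C v z`
(`deg_split`). (c) Sum over `z`: `∑ out C u z ≤ ∑ out C v z = out C v i = out C u i` (`bf_sum`), and
`out C u i ≤ ∑ out C u z` (`out_le`). So all are equal, and termwise `out C u z = out C v z`
(`Finset.sum_eq_sum_iff_of_le`), `inn C u z = inn C v z`. (d) By `out_eq` the outer pairs of `u`
without `i` have weight zero, the same for `v` (`bf_zero`). So for `z` outside the class of `i`: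
`u i z = out C u z` (the sum `out C u z` has only the term `i`) `= out C v z = v i z` (`bf_out`). Inner
pairs: `u z z' = inn C u z = inn C v z = v z z'` for all classes, and `u z z = 0`.
-/

set_option autoImplicit false

namespace Pool.Agent.Lib.HyC

open Pool.Agent.Lib.HyS Finset

variable {n m : ℕ}

private lemma inn_le_of_trv (C : Comp n m) {u v : Fin n → Fin n → ℝ} (hu : IsW u) (hv : IsW v)
    (hA : Trv C (supp u)) (h : ∀ i, deg u i = deg v i) (z : Fin n) : inn C v z ≤ inn C u z := by
  by_cases hm : ∃ z', C.π z' = C.π z ∧ z' ≠ z
  · obtain ⟨z', h1, h2⟩ := hm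
    rw [inn_pair C hv h2.symm h1.symm, inn_pair C hu h2.symm h1.symm, pair_min C hu hA h2.symm h1.symm,
      h z, h z']
    exact le_min (pair_le C hv z z').1 (pair_le C hv z z').2
  · push Not at hm
    rw [inn_single C hv hm, inn_single C hu hm]

theorem uniq_AB (C : Comp n m) {u v : Fin n → Fin n → ℝ} (hu : IsW u) (hv : IsW v)
    (hA : Trv C (supp u)) {c : Fin n} (hB : BTyp C c (supp v)) (h : ∀ i, deg u i = deg v i)
    (i j : Fin n) : u i j = v i j := by
  -- the class of the centre
  have ha : inn C u c = inn C v c := by
    by_cases hm : ∃ c', C.π c' = C.π c ∧ c' ≠ c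
    · obtain ⟨c', h1, h2⟩ := hm
      have e1 := bf_mate C hv hB h2 h1
      have e2 := deg_split C v c'
      rw [e1, add_zero, inn_pair C hv h2 h1, hv.sym c' c] at e2
      rw [inn_pair C hv h2.symm h1.symm, inn_pair C hu h2.symm h1.symm,
        pair_min C hu hA h2.symm h1.symm, h c, h c', e2]
      exact min_eq_right (pair_le C hv c c').1
    · push Not at hm
      rw [inn_single C hv hm, inn_single C hu hm]
  have hao : out C u c = out C v c := by
    have e1 := deg_split C u c
    have e2 := deg_split C v c
    have e3 := h c
    linarith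
  have hb : ∀ z, out C u z ≤ out C v z := by
    intro z
    have e1 := deg_split C u z
    have e2 := deg_split C v z
    have e3 := h z
    have e4 := inn_le_of_trv C hu hv hA h z
    linarith
  have hs1 := out_le C hu c
  have hs2 := bf_sum C hv hB
  have hs3 : ∑ z ∈ univ.filter (fun z => C.π z ≠ C.π c), out C u z ≤
      ∑ z ∈ univ.filter (fun z => C.π z ≠ C.π c), out C v z := Finset.sum_le_sum fun z _ => hb z
  have hs4 : ∑ z ∈ univ.filter (fun z => C.π z ≠ C.π c), out C u z =
      ∑ z ∈ univ.filter (fun z => C.π z ≠ C.π c), out C v z := le_antisymm hs3 (by linarith)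
  have hc : ∀ z, C.π z ≠ C.π c → out C u z = out C v z := by
    intro z hz
    exact (Finset.sum_eq_sum_iff_of_le fun z _ => hb z).mp hs4 z
      (Finset.mem_filter.mpr ⟨Finset.mem_univ z, hz⟩)
  have hu0 := out_eq C hu c (by linarith)
  have hci : ∀ z, C.π z ≠ C.π c → inn C u z = inn C v z := by
    intro z hz
    have e1 := deg_split C u z
    have e2 := deg_split C v z
    have e3 := h z
    have e4 := hc z hz
    linarith
  have hd : ∀ z, C.π z ≠ C.π c → u c z = v c z := by
    intro z hz
    have e1 : out C u z = u z c := by
      unfold out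
      rw [Finset.sum_eq_single c]
      · intro b hb1 hb2
        rw [Finset.mem_filter] at hb1
        exact hu0 z b (fun e => hb1.2 e.symm) (fun e => hz (by rw [e])) hb2
      · intro hn
        exact absurd (Finset.mem_filter.mpr ⟨Finset.mem_univ c, fun e => hz e.symm⟩) hn
    rw [hu.sym c z, ← e1, hc z hz, bf_out C hv hB hz]
  by_cases hij : C.π i = C.π j
  · by_cases hne : i = j
    · rw [hne, hu.dg, hv.dg]
    · by_cases hic : C.π i = C.π c
      · rcases C.fib i j c hij (hij.symm.trans hic) with e | e | e
        · exact absurd e hne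
        · subst e
          rw [hu.sym i j, hv.sym i j, ← inn_pair C hu (fun e => hne e.symm) hij.symm,
            ← inn_pair C hv (fun e => hne e.symm) hij.symm]
          exact ha
        · subst e
          rw [← inn_pair C hu hne hij, ← inn_pair C hv hne hij]
          exact ha
      · rw [← inn_pair C hu hne hij, ← inn_pair C hv hne hij]
        exact hci i hic
  · by_cases h1 : i = c
    · subst h1
      exact hd j (fun e => hij e.symm)
    · by_cases h2 : j = c
      · subst h2
        rw [hu.sym, hv.sym]
        exact hd i hij
      · rw [hu0 i j hij h1 h2, bf_zero C hv hB hij h1 h2]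

end Pool.Agent.Lib.HyC
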