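import Pool.Agent.Lib.HyC.Pm
import Pool.Agent.Lib.HyC.BF

/-!
# HyC, row UC: uniqueness, both of type B with the same centre `c`

PROOF IN WORDS. Class of `c`: if `c` has a mate `c'` then `out C u c' = 0` (`bf_mate`), so `u c c' = deg u c' = deg v c' =
v c c'`. So `inn` and `out` at `c` agree for `u` and `v` (`inn_single` if there is no mate). Let `Z` be
the set of the `z` outside the class of `c`. `∑ z ∈ Z, inn C u z = ∑ z ∈ Z, deg u z - out C u c`
(`bf_sum`, `deg_split`), so it agrees with the sum for `v`. Claim: `inn C u z = inn C v z` for `z ∈ Z`.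
Otherwise take `z ∈ Z` with `inn C u z ≠ inn C v z` and `ρ c (π z)` smallest
(`Finset.exists_min_image`), and let (exchanging `u` and `v` if necessary, the statement is symmetric)
`inn C u z < inn C v z`. As the sums agree there is `t ∈ Z` with `inn C v t < inn C u t`
(`Finset.exists_lt_of_sum_lt` after removing... or by contradiction with `Finset.sum_lt_sum`). Both `z`
and `t` have mates `z'`, `t'` (the larger `inn` is positive, `inn_single`), `π t ≠ π z` (on a class
`inn` is constant), so `ρ c (π z) < ρ c (π t)` by minimality and injectivity. `u t t' = inn C u t > 0`.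
`u z z' < v z z' ≤ deg z, deg z'` (`pair_le`), so `out C u z > 0`, `out C u z' > 0`, that is
`u c z > 0`, `u c z' > 0` (`bf_out`). This contradicts the second part of `BTyp`. So all `inn`, all `out`
agree on `Z`; outer weights: `u c z = out C u z = out C v z = v c z` for `z ∈ Z`, the outer pairs without
`c` are zero (`bf_zero`); inner weights by `inn_pair`; `u z z = 0`.
-/

set_option autoImplicit false

namespace Pool.Agent.Lib.HyC

open Pool.Agent.Lib.HyS Finset

variable {n m : ℕ}

/-- the inner weights at the centre agree -/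
private theorem inn_centre (C : Comp n m) {u v : Fin n → Fin n → ℝ} (hu : IsW u) (hv : IsW v)
    {c : Fin n} (hB : BTyp C c (supp u)) (hB' : BTyp C c (supp v)) (h : ∀ i, deg u i = deg v i) :
    inn C u c = inn C v c := by
  by_cases hm : ∃ c', c' ≠ c ∧ C.π c' = C.π c
  · obtain ⟨c', hne, hc'⟩ := hm
    have h1 : inn C u c = u c c' := inn_pair C hu hne.symm hc'.symm
    have h2 : inn C v c = v c c' := inn_pair C hv hne.symm hc'.symm
    have h3 : inn C u c' = u c' c := inn_pair C hu hne hc'
    have h4 : inn C v c' = v c' c := inn_pair C hv hne hc'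
    have h5 := bf_mate C hu hB hne hc'
    have h6 := bf_mate C hv hB' hne hc'
    have h7 := deg_split C u c'
    have h8 := deg_split C v c'
    have h9 := h c'
    rw [h1, h2, hu.sym c c', hv.sym c c', ← h3, ← h4]
    linarith
  · have hs : ∀ j, C.π j = C.π c → j = c := by
      intro j hj
      by_contra hne
      exact hm ⟨j, hne, hj⟩
    rw [inn_single C hu hs, inn_single C hv hs]

/-- the sums of the inner weights outside the class of the centre agree -/
private theorem sum_inn (C : Comp n m) {u v : Fin n → Fin n → ℝ} (hu : IsW u) (hv : IsW v)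
    {c : Fin n} (hB : BTyp C c (supp u)) (hB' : BTyp C c (supp v)) (h : ∀ i, deg u i = deg v i) :
    ∑ z ∈ univ.filter (fun z => C.π z ≠ C.π c), inn C u z =
      ∑ z ∈ univ.filter (fun z => C.π z ≠ C.π c), inn C v z := by
  have key : ∀ w : Fin n → Fin n → ℝ, IsW w → BTyp C c (supp w) →
      ∑ z ∈ univ.filter (fun z => C.π z ≠ C.π c), inn C w z =
        ∑ z ∈ univ.filter (fun z => C.π z ≠ C.π c), deg w z - (deg w c - inn C w c) := by
    intro w hw hBw
    have h1 : ∑ z ∈ univ.filter (fun z => C.π z ≠ C.π c), deg w z =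
        ∑ z ∈ univ.filter (fun z => C.π z ≠ C.π c), inn C w z +
        ∑ z ∈ univ.filter (fun z => C.π z ≠ C.π c), out C w z := by
      rw [← Finset.sum_add_distrib]
      exact Finset.sum_congr rfl fun z _ => deg_split C w z
    have h2 := bf_sum C hw hBw
    have h3 := deg_split C w c
    linarith
  rw [key u hu hB, key v hv hB', inn_centre C hu hv hB hB' h, h c]
  congr 1
  exact Finset.sum_congr rfl fun z _ => h z

/-- a minimal class where `u` has the smaller inner weight is impossible -/
private theorem no_min (C : Comp n m) {u v : Fin n → Fin n → ℝ} (hu : IsW u) (hv : IsW v)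
    {c : Fin n} (hB : BTyp C c (supp u)) (h : ∀ i, deg u i = deg v i)
    (hsum : ∑ z ∈ univ.filter (fun z => C.π z ≠ C.π c), inn C u z =
      ∑ z ∈ univ.filter (fun z => C.π z ≠ C.π c), inn C v z)
    {z : Fin n} (hz : C.π z ≠ C.π c) (hlt : inn C u z < inn C v z)
    (hmin : ∀ w, C.π w ≠ C.π c → inn C u w ≠ inn C v w → C.ρ c (C.π z) ≤ C.ρ c (C.π w)) :
    False := by
  have ht : ∃ t, C.π t ≠ C.π c ∧ inn C v t < inn C u t := by
    by_contra hno
    push Not at hno
    have hlt' : ∑ z ∈ univ.filter (fun z => C.π z ≠ C.π c), inn C u z <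
        ∑ z ∈ univ.filter (fun z => C.π z ≠ C.π c), inn C v z := by
      apply Finset.sum_lt_sum
      · intro w hw
        exact hno w (Finset.mem_filter.mp hw).2
      · exact ⟨z, Finset.mem_filter.mpr ⟨Finset.mem_univ _, hz⟩, hlt⟩
    linarith
  obtain ⟨t, htc, htlt⟩ := ht
  have hmate : ∀ (w : Fin n → Fin n → ℝ), IsW w → ∀ s, 0 < inn C w s →
      ∃ s', s ≠ s' ∧ C.π s = C.π s' := by
    intro w hw s hs
    by_contra hno
    push Not at hno
    have : inn C w s = 0 := inn_single C hw fun j hj => by
      by_contra hne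
      exact hno j (Ne.symm hne) hj.symm
    linarith
  obtain ⟨z', hzz', hπz⟩ := hmate v hv z (lt_of_le_of_lt (inn_nonneg C hu z) hlt)
  obtain ⟨t', htt', hπt⟩ := hmate u hu t (lt_of_le_of_lt (inn_nonneg C hv t) htlt)
  have e1 : inn C u z = u z z' := inn_pair C hu hzz' hπz
  have e2 : inn C v z = v z z' := inn_pair C hv hzz' hπz
  have e3 : inn C u z' = u z' z := inn_pair C hu hzz'.symm hπz.symm
  have e4 : inn C v z' = v z' z := inn_pair C hv hzz'.symm hπz.symm
  have e5 : inn C u t = u t t' := inn_pair C hu htt' hπt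
  have hs1 := hu.sym z z'
  have hs2 := hv.sym z z'
  have hne : C.π z ≠ C.π t := by
    intro heq
    rcases C.fib t z z' heq.symm hπz with h1 | h1 | h1
    · subst h1
      linarith
    · exact hzz' h1
    · subst h1
      linarith
  have hρ : C.ρ c (C.π z) < C.ρ c (C.π t) :=
    lt_of_le_of_ne (hmin t htc (ne_of_gt htlt)) fun heq => hne (C.inj c heq)
  have hz'c : C.π z' ≠ C.π c := by
    rw [← hπz]
    exact hz
  have hd1 := deg_split C u z
  have hd2 := deg_split C u z'
  have hp := pair_le C hv z z'
  have hh1 := h z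
  have hh2 := h z'
  have o1 : 0 < out C u z := by linarith [hp.1]
  have o2 : 0 < out C u z' := by linarith [hp.2]
  rw [bf_out C hu hB hz] at o1
  rw [bf_out C hu hB hz'c] at o2
  have o3 : 0 < u t t' := by
    have := inn_nonneg C hv t
    linarith
  exact hB.2 z z' t t' hzz' hπz hz htt' hπt htc hρ o1 o2 o3

theorem uniq_BB (C : Comp n m) {u v : Fin n → Fin n → ℝ} (hu : IsW u) (hv : IsW v) {c : Fin n}
    (hB : BTyp C c (supp u)) (hB' : BTyp C c (supp v)) (h : ∀ i, deg u i = deg v i)
    (i j : Fin n) : u i j = v i j := by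
  have hsum := sum_inn C hu hv hB hB' h
  have hc := inn_centre C hu hv hB hB' h
  -- the inner weights agree outside the class of `c`
  have hZ : ∀ z, C.π z ≠ C.π c → inn C u z = inn C v z := by
    by_contra hno
    push Not at hno
    obtain ⟨z₀, hz₀, hz₀'⟩ := hno
    obtain ⟨z, hzm, hzmin⟩ := Finset.exists_min_image
      (univ.filter (fun z => C.π z ≠ C.π c ∧ inn C u z ≠ inn C v z)) (fun z => C.ρ c (C.π z))
      ⟨z₀, Finset.mem_filter.mpr ⟨Finset.mem_univ _, hz₀, hz₀'⟩⟩
    have hz := (Finset.mem_filter.mp hzm).2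
    rcases lt_or_gt_of_ne hz.2 with hlt | hgt
    · exact no_min C hu hv hB h hsum hz.1 hlt fun w hw hne =>
        hzmin w (Finset.mem_filter.mpr ⟨Finset.mem_univ _, hw, hne⟩)
    · exact no_min C hv hu hB' (fun i => (h i).symm) hsum.symm hz.1 hgt fun w hw hne =>
        hzmin w (Finset.mem_filter.mpr ⟨Finset.mem_univ _, hw, hne.symm⟩)
  -- all inner weights agree
  have hI : ∀ z, inn C u z = inn C v z := by
    intro z
    by_cases hz : C.π z = C.π c
    · by_cases hzc : z = c
      · rw [hzc]
        exact hc
      · rw [inn_pair C hu hzc hz, inn_pair C hv hzc hz, hu.sym z c, hv.sym z c,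
          ← inn_pair C hu (Ne.symm hzc) hz.symm, ← inn_pair C hv (Ne.symm hzc) hz.symm]
        exact hc
    · exact hZ z hz
  -- the pairs with `c`
  have hO : ∀ z, C.π z ≠ C.π c → u c z = v c z := by
    intro z hz
    rw [← bf_out C hu hB hz, ← bf_out C hv hB' hz]
    have h1 := deg_split C u z
    have h2 := deg_split C v z
    have h3 := h z
    have h4 := hI z
    linarith
  by_cases hij : i = j
  · rw [hij, hu.dg, hv.dg]
  · by_cases hπ : C.π i = C.π j
    · rw [← inn_pair C hu hij hπ, ← inn_pair C hv hij hπ]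
      exact hI i
    · by_cases hic : i = c
      · subst hic
        exact hO j (Ne.symm hπ)
      · by_cases hjc : j = c
        · subst hjc
          rw [hu.sym, hv.sym]
          exact hO i hπ
        · rw [bf_zero C hu hB hπ hic hjc, bf_zero C hv hB' hπ hic hjc]

end Pool.Agent.Lib.HyC
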