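import Pool.Agent.Lib.HyC.Pm
import Pool.Agent.Lib.HyC.BF

/-!
# HyC, row UD: uniqueness, both of type B with different centres `c`, `d`

PROOF IN WORDS. First case `π c = π d` (mates): `out C u d = 0` and `out C v c = 0` (`bf_mate`). So
`deg d = u c d ≤ deg c` and `deg c = v c d ≤ deg d` (`deg_split`, `inn_pair`, `pair_le`), so both degrees
are equal, `u c d = deg c`, `out C u c = 0`, and in the same way `out C v d = 0`. By `bf_sum` and
nonnegativity `out C u z = 0` for all `z` (also for the mate `d`), the same for `v`; so all outer weights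
are zero (`le_out`) and `inn C u z = deg z = inn C v z`, which gives the inner weights (`inn_pair`).
Second case `π c ≠ π d`. (a) `out C v d ≤ out C u d`: if `d` has a mate `d'`, `inn C v d = v d d' = deg d'`
(`bf_mate`) and `inn C u d = u d d' ≤ deg d'` (`pair_le`); if not both are zero. (b) `out C u d = u c d`
(`bf_out`) `≤ out C u c` (`le_out`). (c) By symmetry `out C u c ≤ out C v c` and
`out C v c = v d c ≤ out C v d`. So all these numbers are equal, in particular `u c d = v c d`,
`out C u c = out C v c`, `out C u d = out C v d`, and `out C u c = out C u d`. By `bf_sum` for `u`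
(the term `z = d` is already the whole sum, the terms are nonnegative) `out C u z = 0` for all
`z ≠ d` outside the class of `c`, and for the mate of `c` by `bf_mate`; so for all `z ≠ c, d`. The same
for `v`. So `out` agrees everywhere, hence `inn` (`deg_split`), hence the inner weights; an outer
pair `(i, j)` which is not `(c, d)` or `(d, c)` contains an index with `out = 0`, so both weights are
zero (`le_out`).
-/

set_option autoImplicit false

namespace Pool.Agent.Lib.HyC

open Pool.Agent.Lib.HyS Finset

variable {n m : ℕ}

/-- the last step: from the outer degrees and the outer weights to all weights -/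
private theorem fin_of_out (C : Comp n m) {u v : Fin n → Fin n → ℝ} (hu : IsW u) (hv : IsW v)
    (h : ∀ i, deg u i = deg v i) (ho : ∀ z, out C u z = out C v z)
    (hout : ∀ i j, C.π i ≠ C.π j → u i j = v i j) (i j : Fin n) : u i j = v i j := by
  by_cases hij : i = j
  · subst hij
    rw [hu.dg, hv.dg]
  · by_cases hπ : C.π i = C.π j
    · have h1 := inn_pair C hu hij hπ
      have h2 := inn_pair C hv hij hπ
      have h3 := deg_split C u i
      have h4 := deg_split C v i
      have h5 := h i
      have h6 := ho i
      linarith
    · exact hout i j hπ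

/-- outer weights when all outer degrees except those of `c`, `d` are zero -/
private theorem outer_of (C : Comp n m) {u v : Fin n → Fin n → ℝ} (hu : IsW u) (hv : IsW v)
    {c d : Fin n} (hz : ∀ z, z ≠ c → z ≠ d → out C u z = 0 ∧ out C v z = 0)
    (hcd : u c d = v c d) (i j : Fin n) (hij : C.π i ≠ C.π j) : u i j = v i j := by
  have key : ∀ a b : Fin n, C.π a ≠ C.π b → a ≠ c → a ≠ d → u a b = v a b := by
    intro a b hab hac had
    obtain ⟨h1, h2⟩ := hz a hac had
    have h3 := le_out C hu a b (Ne.symm hab)
    have h4 := le_out C hv a b (Ne.symm hab)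
    have h5 := hu.nn a b
    have h6 := hv.nn a b
    linarith
  by_cases hi : i ≠ c ∧ i ≠ d
  · exact key i j hij hi.1 hi.2
  by_cases hj : j ≠ c ∧ j ≠ d
  · rw [hu.sym i j, hv.sym i j]
    exact key j i (Ne.symm hij) hj.1 hj.2
  have hi' : i = c ∨ i = d := by
    by_contra hno
    push Not at hno
    exact hi hno
  have hj' : j = c ∨ j = d := by
    by_contra hno
    push Not at hno
    exact hj hno
  rcases hi' with rfl | rfl <;> rcases hj' with rfl | rfl
  · exact absurd rfl hij
  · exact hcd
  · rw [hu.sym i j, hv.sym i j]
    exact hcd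
  · exact absurd rfl hij

/-- the inner degree at the centre of `v` is at least the one of `u` -/
private theorem inn_le_centre (C : Comp n m) {u v : Fin n → Fin n → ℝ} (hu : IsW u) (hv : IsW v)
    {d : Fin n} (hB' : BTyp C d (supp v)) (h : ∀ i, deg u i = deg v i) :
    inn C u d ≤ inn C v d := by
  by_cases hm : ∃ d', d' ≠ d ∧ C.π d' = C.π d
  · obtain ⟨d', hne, hd'⟩ := hm
    have h1 := inn_pair C hu hne.symm hd'.symm
    have h2 := inn_pair C hv hne.symm hd'.symm
    have h3 := inn_pair C hv hne hd'
    have h4 := bf_mate C hv hB' hne hd'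
    have h5 := deg_split C v d'
    have h6 := (pair_le C hu d d').2
    have h7 := h d'
    have h8 := hv.sym d d'
    linarith
  · have hs : ∀ j, C.π j = C.π d → j = d := by
      intro j hj
      by_contra hne
      exact hm ⟨j, hne, hj⟩
    rw [inn_single C hu hs, inn_single C hv hs]

/-- the outer degrees away from `c`, `d` -/
private theorem rest_zero (C : Comp n m) {u : Fin n → Fin n → ℝ} (hu : IsW u) {c d : Fin n}
    (hB : BTyp C c (supp u)) (hcd : C.π d ≠ C.π c) (h : out C u c ≤ out C u d) (z : Fin n)
    (hzc : z ≠ c) (hzd : z ≠ d) : out C u z = 0 := by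
  by_cases hz : C.π z = C.π c
  · exact bf_mate C hu hB hzc hz
  · have h1 := bf_sum C hu hB
    have hmem : d ∈ univ.filter (fun z => C.π z ≠ C.π c) :=
      Finset.mem_filter.mpr ⟨Finset.mem_univ _, hcd⟩
    rw [← Finset.add_sum_erase _ _ hmem] at h1
    have hmem' : z ∈ (univ.filter (fun z => C.π z ≠ C.π c)).erase d :=
      Finset.mem_erase.mpr ⟨hzd, Finset.mem_filter.mpr ⟨Finset.mem_univ _, hz⟩⟩
    have h2 := Finset.single_le_sum (f := fun z => out C u z)
      (fun w _ => out_nonneg C hu w) hmem'
    have h3 := out_nonneg C hu z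
    linarith

/-- the first case: the centres are in one class -/
private theorem mates (C : Comp n m) {u v : Fin n → Fin n → ℝ} (hu : IsW u) (hv : IsW v)
    {c d : Fin n} (hcd : c ≠ d) (hB : BTyp C c (supp u)) (hB' : BTyp C d (supp v))
    (h : ∀ i, deg u i = deg v i) (hπ : C.π c = C.π d) (i j : Fin n) : u i j = v i j := by
  have a1 := bf_mate C hu hB hcd.symm hπ.symm
  have a2 := bf_mate C hv hB' hcd hπ
  have b1 := inn_pair C hu hcd hπ
  have b2 := inn_pair C hu hcd.symm hπ.symm
  have b3 := inn_pair C hv hcd hπ
  have b4 := inn_pair C hv hcd.symm hπ.symm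
  have s1 := hu.sym c d
  have s2 := hv.sym c d
  have d1 := deg_split C u c
  have d2 := deg_split C u d
  have d3 := deg_split C v c
  have d4 := deg_split C v d
  have e1 := h c
  have e2 := h d
  have p1 := (pair_le C hu c d).1
  have p2 := (pair_le C hv c d).2
  have o1 := out_nonneg C hu c
  have o2 := out_nonneg C hv d
  have hc0 : out C u c = 0 := by linarith
  have hd0 : out C v d = 0 := by linarith
  have hcd' : u c d = v c d := by linarith
  have hall : ∀ z, z ≠ c → z ≠ d → out C u z = 0 ∧ out C v z = 0 := by
    intro z hzc hzd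
    have hz : C.π z ≠ C.π c := by
      intro hz
      rcases C.fib z c d hz hπ with h1 | h1 | h1
      · exact hzc h1
      · exact hcd h1
      · exact hzd h1
    have hz' : C.π z ≠ C.π d := by
      rw [← hπ]
      exact hz
    constructor
    · have h1 := bf_sum C hu hB
      have h2 := Finset.single_le_sum (f := fun z => out C u z)
        (fun w _ => out_nonneg C hu w)
        (Finset.mem_filter.mpr ⟨Finset.mem_univ z, hz⟩ :
          z ∈ univ.filter (fun z => C.π z ≠ C.π c))
      have h3 := out_nonneg C hu z
      linarith
    · have h1 := bf_sum C hv hB'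
      have h2 := Finset.single_le_sum (f := fun z => out C v z)
        (fun w _ => out_nonneg C hv w)
        (Finset.mem_filter.mpr ⟨Finset.mem_univ z, hz'⟩ :
          z ∈ univ.filter (fun z => C.π z ≠ C.π d))
      have h3 := out_nonneg C hv z
      linarith
  refine fin_of_out C hu hv h ?_ (outer_of C hu hv hall hcd') i j
  intro z
  by_cases hzc : z = c
  · subst hzc
    linarith
  by_cases hzd : z = d
  · subst hzd
    linarith
  · rw [(hall z hzc hzd).1, (hall z hzc hzd).2]

theorem uniq_BD (C : Comp n m) {u v : Fin n → Fin n → ℝ} (hu : IsW u) (hv : IsW v) {c d : Fin n}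
    (hcd : c ≠ d) (hB : BTyp C c (supp u)) (hB' : BTyp C d (supp v))
    (h : ∀ i, deg u i = deg v i) (i j : Fin n) : u i j = v i j := by
  by_cases hπ : C.π c = C.π d
  · exact mates C hu hv hcd hB hB' h hπ i j
  · have i1 := inn_le_centre C hu hv hB' h
    have i2 := inn_le_centre C hv hu hB (fun i => (h i).symm)
    have o1 := bf_out C hu hB (z := d) (Ne.symm hπ)
    have o2 := bf_out C hv hB' (z := c) hπ
    have l1 := le_out C hu c d (Ne.symm hπ)
    have l2 := le_out C hv d c hπ
    have s2 := hv.sym d c
    have d1 := deg_split C u c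
    have d2 := deg_split C u d
    have d3 := deg_split C v c
    have d4 := deg_split C v d
    have e1 := h c
    have e2 := h d
    have hcd' : u c d = v c d := by linarith
    have hall : ∀ z, z ≠ c → z ≠ d → out C u z = 0 ∧ out C v z = 0 := by
      intro z hzc hzd
      exact ⟨rest_zero C hu hB (Ne.symm hπ) (by linarith) z hzc hzd,
        rest_zero C hv hB' hπ (by linarith) z hzd hzc⟩
    refine fin_of_out C hu hv h ?_ (outer_of C hu hv hall hcd') i j
    intro z
    by_cases hzc : z = c
    · subst hzc
      linarith
    by_cases hzd : z = d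
    · subst hzd
      linarith
    · rw [(hall z hzc hzd).1, (hall z hzc hzd).2]

end Pool.Agent.Lib.HyC
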