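import Pool.Agent.Lib.HyC.UAA
import Pool.Agent.Lib.HyC.UB
import Pool.Agent.Lib.HyC.UC
import Pool.Agent.Lib.HyC.UD
import Pool.Agent.Lib.HyC.EA
import Pool.Agent.Lib.HyC.EB
import Pool.Agent.Lib.HyC.Asm
import Pool.Agent.Lib.HyC.Iv1
import Pool.Agent.Lib.HyC.Iv2
import Pool.Agent.Lib.HyC.Rnk

/-!
# HyC: the composition theorem
-/

set_option autoImplicit false

namespace Pool.Agent.Lib.HyC

open Pool.Agent.Lib.HyS Finset

variable {n m : ℕ}

theorem can_uniq (C : Comp n m) (T : LatticeTriangulation 2 m) : Uniq (Can C T) := by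
  intro u v hu hv hcu hcv h i j
  rcases hcu with hA | ⟨c, hB⟩
  · rcases hcv with hA' | ⟨d, hB'⟩
    · exact uniq_AA C T hu hv hA hA' h i j
    · exact uniq_AB C hu hv hA.1 hB' h i j
  · rcases hcv with hA' | ⟨d, hB'⟩
    · exact (uniq_AB C hv hu hA'.1 hB (fun i => (h i).symm) i j).symm
    · by_cases hcd : c = d
      · subst hcd
        exact uniq_BB C hu hv hB hB' h i j
      · exact uniq_BD C hu hv hcd hB hB' h i j

theorem can_exi (C : Comp n m) (T : LatticeTriangulation 2 m) : Exi (Can C T) := by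
  intro x hx
  have hr : ∀ p : Fin m, ∃ r : Fin n, C.π r = p ∧ ∀ i, C.π i = p → x i ≤ x r := by
    intro p
    obtain ⟨a, ha⟩ := C.sur p
    obtain ⟨r, hr, hmax⟩ := Finset.exists_max_image (univ.filter (fun i => C.π i = p)) x
      ⟨a, by simp [ha]⟩
    refine ⟨r, by simpa using hr, ?_⟩
    intro i hi
    exact hmax i (by simp [hi])
  choose rep hrep hm using hr
  have hmax : ∀ i, x i ≤ x (rep (C.π i)) := fun i => hm (C.π i) i rfl
  by_cases hB : ∃ q, ∑ p, (2 * x (rep p) - ∑ i ∈ univ.filter (fun i => C.π i = p), x i) <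
      2 * (2 * x (rep q) - ∑ i ∈ univ.filter (fun i => C.π i = q), x i)
  · obtain ⟨q, hq⟩ := hB
    obtain ⟨u, hu, hb, hd⟩ := ex_B C x hx rep hrep hmax q hq
    exact ⟨u, hu, Or.inr ⟨rep q, hb⟩, hd⟩
  · push Not at hB
    obtain ⟨u, hu, ha, hd⟩ := ex_A C T x (fun i => (hx.1 i).1) rep hrep hmax hB
    exact ⟨u, hu, Or.inl ha, hd⟩

theorem can_mono (C : Comp n m) (T : LatticeTriangulation 2 m) : Mono (Can C T) := by
  intro S S' hS h
  rcases h with ⟨ht, F, hF, hFi⟩ | ⟨c, h1, h2⟩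
  · refine Or.inl ⟨?_, F, hF, fun i j hij hne => hFi i j (hS i j hij) hne⟩
    intro i j k l hij hkl h1 h2 h3
    exact ht i j k l (hS i j hij) (hS k l hkl) h1 h2 h3
  · refine Or.inr ⟨c, fun j k hjk => h1 j k (hS j k hjk), ?_⟩
    intro b b' d d' hb hbb hbc hd hdd hdc hlt hib hib' hdd'
    exact h2 b b' d d' hb hbb hbc hd hdd hdc hlt (hS _ _ hib) (hS _ _ hib') (hS _ _ hdd')

/-- The composition theorem. -/
theorem composition (G : Subgroup (Equiv.Perm (Fin n))) (π : Fin n → Fin m)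
    (hsur : Function.Surjective π)
    (hfib : ∀ a b c, π a = π b → π b = π c → a = b ∨ b = c ∨ a = c)
    (hst : ∀ σ ∈ G, ∀ i, σ i = i → ∀ j, π (σ j) = π j)
    (T : LatticeTriangulation 2 m) (Gb : Subgroup (Equiv.Perm (Fin m))) (hT : Invariant Gb T)
    (hGb : ∀ σ ∈ G, ∃ τ ∈ Gb, ∀ i, π (σ i) = τ (π i)) :
    ∃ T' : LatticeTriangulation 2 n, Invariant G T' := by
  have hcl : ∀ σ ∈ G, ∀ i j, π i = π j → π (σ i) = π (σ j) := by
    intro σ hσ i j hij
    obtain ⟨τ, -, hτ⟩ := hGb σ hσ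
    rw [hτ, hτ, hij]
  obtain ⟨ρ, hinj, hρ⟩ := rank_exists π hsur G hst hcl
  let C : Comp n m := ⟨π, hsur, hfib, ρ, hinj⟩
  obtain ⟨T', hT'⟩ := as_all (Can C T) (can_mono C T) (can_uniq C T) (can_exi C T)
  refine ⟨T', inv_of T' (Can C T) (can_mono C T) hT' G ?_⟩
  intro σ hσ S hS
  obtain ⟨τ, hτ, hπ⟩ := hGb σ hσ
  refine can_inv C T σ τ hπ ?_ (hT τ hτ) S hS
  intro i p
  obtain ⟨j, rfl⟩ := hsur p
  have h1 := hρ σ hσ i j
  rw [hπ j] at h1
  exact h1

end Pool.Agent.Lib.HyC
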