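import Pool.Agent.Lib.HyC.Defs
import Pool.Agent.Lib.HyS.CarB

/-!
# HyC, row Cv: from weights on points to weights on pairs

PROOF IN WORDS. `ind {i, j}` is symmetric in `i`, `j` and, for `i ≠ j` and `k ≠ l`, `ind {i, j} = ind {k, l}` iff the sets
are equal (`ind_injective` in HyS.CarB). `cv_w`: by cases. `cv_supp`: unfold. `cv_deg`:
`(∑ v ∈ s, a v • v) i = ∑ v ∈ s, a v * v i`; every `v ∈ s` is `ind {k, l}`, so `v i` is `1` or `0`;
the map `j ↦ ind {i, j}` is a bijection from the `j` with `i ≠ j`, `ind {i, j} ∈ s` onto the `v ∈ s` with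
`v i = 1` (`Finset.sum_bij_ne_zero` or `Finset.sum_nbij` after filtering). `cv_sum`: the sum over `i` of
`cv_deg`, as the coordinates of `ind {k, l}` have sum `2`.
-/

set_option autoImplicit false

namespace Pool.Agent.Lib.HyC

open Pool.Agent.Lib.HyS Finset

variable {n m : ℕ}

private theorem cv_ind_inj {I J : Finset (Fin n)} (h : ind I = ind J) : I = J :=
  ind_injective n h

private theorem cv_coord (v : Fin n → ℝ) (hv : ∃ k l, k ≠ l ∧ v = ind {k, l}) (i : Fin n) :
    (open Classical in v i = ∑ j, if (i ≠ j ∧ ind {i, j} = v) then (1 : ℝ) else 0) := by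
  classical
  obtain ⟨k, l, hkl, rfl⟩ := hv
  by_cases hik : i = k
  · subst hik
    rw [Finset.sum_eq_single l]
    · rw [if_pos ⟨hkl, rfl⟩]
      simp [ind]
    · intro j _ hj
      rw [if_neg]
      rintro ⟨h1, h2⟩
      have h3 := cv_ind_inj h2
      have h4 : j ∈ ({i, l} : Finset (Fin n)) := by
        rw [← h3]
        simp
      simp only [Finset.mem_insert, Finset.mem_singleton] at h4
      rcases h4 with h4 | h4
      · exact h1 h4.symm
      · exact hj h4
    · intro h
      exact absurd (Finset.mem_univ _) h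
  · by_cases hil : i = l
    · subst hil
      rw [Finset.sum_eq_single k]
      · rw [if_pos ⟨hik, by rw [Finset.pair_comm]⟩]
        simp [ind]
      · intro j _ hj
        rw [if_neg]
        rintro ⟨h1, h2⟩
        have h3 := cv_ind_inj h2
        have h4 : j ∈ ({k, i} : Finset (Fin n)) := by
          rw [← h3]
          simp
        simp only [Finset.mem_insert, Finset.mem_singleton] at h4
        rcases h4 with h4 | h4
        · exact hj h4
        · exact h1 h4.symm
      · intro h
        exact absurd (Finset.mem_univ _) h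
    · rw [Finset.sum_eq_zero]
      · simp [ind, hik, hil]
      · intro j _
        rw [if_neg]
        rintro ⟨_, h2⟩
        have h3 := cv_ind_inj h2
        have h4 : i ∈ ({k, l} : Finset (Fin n)) := by
          rw [← h3]
          simp
        simp only [Finset.mem_insert, Finset.mem_singleton] at h4
        rcases h4 with h4 | h4
        · exact hik h4
        · exact hil h4

theorem cv_w (s : Finset (Fin n → ℝ)) (a : (Fin n → ℝ) → ℝ) (ha : ∀ v ∈ s, 0 ≤ a v) :
    IsW (toW s a) := by
  refine ⟨?_, ?_, ?_⟩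
  · intro i j
    unfold toW
    split_ifs with h
    · exact ha _ h.2
    · exact le_refl _
  · intro i j
    unfold toW
    rw [Finset.pair_comm i j]
    by_cases h : i ≠ j ∧ ind {j, i} ∈ s
    · rw [if_pos h, if_pos ⟨h.1.symm, h.2⟩]
    · rw [if_neg h, if_neg (fun h' => h ⟨h'.1.symm, h'.2⟩)]
  · intro i
    unfold toW
    rw [if_neg]
    rintro ⟨h, _⟩
    exact h rfl

theorem cv_supp (s : Finset (Fin n → ℝ)) (a : (Fin n → ℝ) → ℝ) (i j : Fin n)
    (h : supp (toW s a) i j) : prs s i j ∧ 0 < a (ind {i, j}) := by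
  unfold supp toW at h
  by_cases hc : i ≠ j ∧ ind {i, j} ∈ s
  · rw [if_pos hc] at h
    exact ⟨hc, h⟩
  · rw [if_neg hc] at h
    exact absurd h (lt_irrefl _)

theorem cv_deg (s : Finset (Fin n → ℝ)) (hs : IsPairs s) (a : (Fin n → ℝ) → ℝ) (i : Fin n) :
    deg (toW s a) i = (∑ v ∈ s, a v • v) i := by
  classical
  have h1 : (∑ v ∈ s, a v • v) i = ∑ v ∈ s, ∑ j, if (i ≠ j ∧ ind {i, j} = v) then a v else 0 := by
    rw [Finset.sum_apply]
    refine Finset.sum_congr rfl fun v hv => ?_
    rw [Pi.smul_apply, smul_eq_mul, cv_coord v (hs v hv) i, Finset.mul_sum]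
    refine Finset.sum_congr rfl fun j _ => ?_
    split_ifs <;> simp
  rw [h1, Finset.sum_comm]
  unfold deg
  refine Finset.sum_congr rfl fun j _ => ?_
  unfold toW
  by_cases hij : i ≠ j
  · by_cases hm : ind {i, j} ∈ s
    · rw [if_pos ⟨hij, hm⟩, Finset.sum_eq_single (ind {i, j})]
      · rw [if_pos ⟨hij, rfl⟩]
      · intro v _ hv
        rw [if_neg]
        rintro ⟨_, h⟩
        exact hv h.symm
      · intro h
        exact absurd hm h
    · rw [if_neg (fun h => hm h.2), Finset.sum_eq_zero]
      intro v hv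
      rw [if_neg]
      rintro ⟨_, h⟩
      rw [h] at hm
      exact hm hv
  · rw [if_neg (fun h => hij h.1), Finset.sum_eq_zero]
    intro v _
    rw [if_neg]
    rintro ⟨h, _⟩
    exact hij h

theorem cv_sum (s : Finset (Fin n → ℝ)) (hs : IsPairs s) (a : (Fin n → ℝ) → ℝ) :
    ∑ i, deg (toW s a) i = 2 * ∑ v ∈ s, a v := by
  classical
  have h1 : ∀ i, deg (toW s a) i = ∑ v ∈ s, a v * v i := by
    intro i
    rw [cv_deg s hs a i, Finset.sum_apply]
    exact Finset.sum_congr rfl fun v _ => by rw [Pi.smul_apply, smul_eq_mul]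
  rw [Finset.sum_congr rfl fun i _ => h1 i, Finset.sum_comm, Finset.mul_sum]
  refine Finset.sum_congr rfl fun v hv => ?_
  rw [← Finset.mul_sum]
  obtain ⟨k, l, hkl, rfl⟩ := hs v hv
  have h2 : ∑ i, ind {k, l} i = (2 : ℝ) := by
    unfold ind
    rw [Finset.sum_ite_mem, Finset.univ_inter, Finset.sum_const, Finset.card_pair hkl]
    norm_num
  rw [h2, mul_comm]

end Pool.Agent.Lib.HyC
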