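import Pool.Agent.Lib.HyS.Defs

/-!
# MP_079fc8_co, composition of triangulations of the second hypersimplex. Definitions
-/

set_option autoImplicit false

namespace Pool.Agent.Lib.HyC

open Pool.Agent.Lib.HyS Finset

/-- Symmetric nonnegative weights on the pairs of different indices. -/
structure IsW {n : ℕ} (u : Fin n → Fin n → ℝ) : Prop where
  nn : ∀ i j, 0 ≤ u i j
  sym : ∀ i j, u i j = u j i
  dg : ∀ i, u i i = 0

/-- The point with the weights `u`: the sum of the `u i j (e_i + e_j)` over the pairs. -/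
def deg {n : ℕ} (u : Fin n → Fin n → ℝ) (i : Fin n) : ℝ := ∑ j, u i j

/-- The pairs of positive weight. -/
def supp {n : ℕ} (u : Fin n → Fin n → ℝ) (i j : Fin n) : Prop := 0 < u i j

/-- A partition into `m` classes (the fibres of `π`) of size one or two and, for every index, an
order of the classes. -/
structure Comp (n m : ℕ) where
  π : Fin n → Fin m
  sur : Function.Surjective π
  fib : ∀ a b c, π a = π b → π b = π c → a = b ∨ b = c ∨ a = c
  ρ : Fin n → Fin m → ℕ
  inj : ∀ i, Function.Injective (ρ i)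

/-- The weight at `i` of the pairs inside the class of `i`. -/
def inn {n m : ℕ} (C : Comp n m) (u : Fin n → Fin n → ℝ) (i : Fin n) : ℝ :=
  ∑ j ∈ univ.filter (fun j => C.π j = C.π i), u i j

/-- The weight at `i` of the other pairs (the outer pairs). -/
def out {n m : ℕ} (C : Comp n m) (u : Fin n → Fin n → ℝ) (i : Fin n) : ℝ :=
  ∑ j ∈ univ.filter (fun j => C.π j ≠ C.π i), u i j

/-- The outer pairs of `S` use only one index of every class. -/
def Trv {n m : ℕ} (C : Comp n m) (S : Fin n → Fin n → Prop) : Prop :=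
  ∀ i j k l, S i j → S k l → C.π i ≠ C.π j → C.π k ≠ C.π l → C.π i = C.π k → i = k

/-- Type A: the outer pairs use only one index of every class and project into a simplex of `T`. -/
def ATyp {n m : ℕ} (C : Comp n m) (T : LatticeTriangulation 2 m) (S : Fin n → Fin n → Prop) :
    Prop :=
  Trv C S ∧ ∃ F : Finset (Fin m → ℝ), (F = ∅ ∨ F ∈ T.K.faces) ∧
    ∀ i j, S i j → C.π i ≠ C.π j → ind {C.π i, C.π j} ∈ F

/-- Type B with centre `i`: all outer pairs contain `i`, and if both indices of a class are joined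
to `i` then no class of later rank is a pair of `S`. -/
def BTyp {n m : ℕ} (C : Comp n m) (i : Fin n) (S : Fin n → Fin n → Prop) : Prop :=
  (∀ j k, S j k → C.π j = C.π k ∨ j = i ∨ k = i) ∧
  ∀ b b' d d', b ≠ b' → C.π b = C.π b' → C.π b ≠ C.π i → d ≠ d' → C.π d = C.π d' →
    C.π d ≠ C.π i → C.ρ i (C.π b) < C.ρ i (C.π d) → S i b → S i b' → ¬ S d d'

/-- The simplices of the new triangulation. -/
def Can {n m : ℕ} (C : Comp n m) (T : LatticeTriangulation 2 m) (S : Fin n → Fin n → Prop) :
    Prop :=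
  ATyp C T S ∨ ∃ i, BTyp C i S

open Classical in
/-- The weights on pairs which belong to the weights `a` on the points of `s`. -/
noncomputable def toW {n : ℕ} (s : Finset (Fin n → ℝ)) (a : (Fin n → ℝ) → ℝ) (i j : Fin n) : ℝ :=
  if i ≠ j ∧ ind {i, j} ∈ s then a (ind {i, j}) else 0

/-- `s` consists of vertices of the second hypersimplex. -/
def IsPairs {n : ℕ} (s : Finset (Fin n → ℝ)) : Prop := ∀ v ∈ s, ∃ i j, i ≠ j ∧ v = ind {i, j}

/-- The pairs of `s`. -/
def prs {n : ℕ} (s : Finset (Fin n → ℝ)) (i j : Fin n) : Prop := i ≠ j ∧ ind {i, j} ∈ s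

/-- `Cn` is inherited by smaller sets of pairs. -/
def Mono {n : ℕ} (Cn : (Fin n → Fin n → Prop) → Prop) : Prop :=
  ∀ S S' : Fin n → Fin n → Prop, (∀ i j, S i j → S' i j) → Cn S' → Cn S

/-- Weights whose support satisfies `Cn` are determined by their point. -/
def Uniq {n : ℕ} (Cn : (Fin n → Fin n → Prop) → Prop) : Prop :=
  ∀ u v : Fin n → Fin n → ℝ, IsW u → IsW v → Cn (supp u) → Cn (supp v) →
    (∀ i, deg u i = deg v i) → ∀ i j, u i j = v i j

/-- Every point has weights whose support satisfies `Cn`. -/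
def Exi {n : ℕ} (Cn : (Fin n → Fin n → Prop) → Prop) : Prop :=
  ∀ x ∈ hypersimplex 2 n, ∃ u : Fin n → Fin n → ℝ, IsW u ∧ Cn (supp u) ∧ ∀ i, deg u i = x i

/-- All orbits of all point stabilisers have at most two elements. -/
def Small {n : ℕ} (G : Subgroup (Equiv.Perm (Fin n))) : Prop :=
  ∀ x y : Fin n, ∀ σ ∈ G, ∀ τ ∈ G, σ x = x → τ x = x → σ y = y ∨ τ y = y ∨ σ y = τ y

end Pool.Agent.Lib.HyC
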