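import Pool.Agent.Lib.HyC.Cmp
import Pool.Agent.Lib.HyC.Quo
import Pool.Agent.Lib.HyS.Alc

/-!
# HyC: groups with a fixed point
-/

set_option autoImplicit false

namespace Pool.Agent.Lib.HyC

open Pool.Agent.Lib.HyS Finset

variable {n m : ℕ}

theorem fix_exists (G : Subgroup (Equiv.Perm (Fin n))) (x : Fin n) (hx : ∀ σ ∈ G, σ x = x)
    (hs : Small G) : ∃ T : LatticeTriangulation 2 n, Invariant G T := by
  let r : Setoid (Fin n) :=
    { r := fun a b => ∃ σ ∈ G, σ a = b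
      iseqv :=
        { refl := fun a => ⟨1, G.one_mem, rfl⟩
          symm := by
            rintro a b ⟨σ, hσ, rfl⟩
            exact ⟨σ⁻¹, G.inv_mem hσ, by simp⟩
          trans := by
            rintro a b c ⟨σ, hσ, rfl⟩ ⟨τ, hτ, rfl⟩
            exact ⟨τ * σ, G.mul_mem hτ hσ, rfl⟩ } }
  obtain ⟨m, π, hsur, hπ⟩ := quo r
  have hinv : ∀ σ ∈ G, ∀ j, π (σ j) = π j := by
    intro σ hσ j
    rw [hπ]
    exact ⟨σ⁻¹, G.inv_mem hσ, by simp⟩
  obtain ⟨T, hT⟩ := alcoved_exists 2 m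
  refine composition G π hsur ?_ (fun σ hσ i _ j => hinv σ hσ j) T (dihedral m) hT
    (fun σ hσ => ⟨1, (dihedral m).one_mem, fun i => by simpa using hinv σ hσ i⟩)
  intro a b c hab hbc
  rw [hπ] at hab hbc
  obtain ⟨σ, hσ, hab⟩ := hab
  obtain ⟨τ, hτ, hbc⟩ := hbc
  have hσ' : σ⁻¹ b = a := by rw [← hab]; simp
  have h := hs x b σ⁻¹ (G.inv_mem hσ) τ hτ (hx _ (G.inv_mem hσ)) (hx _ hτ)
  rw [hσ', hbc] at h
  rcases h with h | h | h
  · exact Or.inl h
  · exact Or.inr (Or.inl h.symm)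
  · exact Or.inr (Or.inr h)

end Pool.Agent.Lib.HyC
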