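import Pool.Agent.Lib.HyC.Bs

/-!
# HyC, row Pm: for transversal outer pairs the inner weight is the minimum

PROOF IN WORDS. `deg u i = u i j + out C u i`, `deg u j = u i j + out C u j` (`deg_split`, `inn_pair`,
`u j i = u i j`), and one of `out C u i`, `out C u j` is zero: otherwise by `out_zero` there are outer
pairs `(i, a)`, `(j, b)` of positive weight and transversality gives `i = j`.
-/

set_option autoImplicit false

namespace Pool.Agent.Lib.HyC

open Pool.Agent.Lib.HyS Finset

variable {n m : ℕ}

theorem pair_min (C : Comp n m) {u : Fin n → Fin n → ℝ} (hu : IsW u) (ht : Trv C (supp u))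
    {i j : Fin n} (hij : i ≠ j) (h : C.π i = C.π j) : u i j = min (deg u i) (deg u j) := by
  have e1 : deg u i = u i j + out C u i := by
    rw [deg_split C u i, inn_pair C hu hij h]
  have e2 : deg u j = u i j + out C u j := by
    rw [deg_split C u j, inn_pair C hu hij.symm h.symm, hu.sym j i]
  have n1 := out_nonneg C hu i
  have n2 := out_nonneg C hu j
  by_cases h1 : out C u i = 0
  · rw [e1, e2, h1, add_zero, min_eq_left]
    linarith
  · by_cases h2 : out C u j = 0
    · rw [e1, e2, h2, add_zero, min_eq_right]
      linarith
    · exfalso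
      have g1 : ∃ a, C.π i ≠ C.π a ∧ supp u i a := by
        by_contra hc
        push Not at hc
        exact h1 (out_zero C hu i hc)
      have g2 : ∃ b, C.π j ≠ C.π b ∧ supp u j b := by
        by_contra hc
        push Not at hc
        exact h2 (out_zero C hu j hc)
      obtain ⟨a, ha, sa⟩ := g1
      obtain ⟨b, hb, sb⟩ := g2
      exact hij (ht i a j b sa sb ha hb h)

/-- an inner weight is at most both degrees -/
theorem pair_le (C : Comp n m) {u : Fin n → Fin n → ℝ} (hu : IsW u) (i j : Fin n) :
    u i j ≤ deg u i ∧ u i j ≤ deg u j := by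
  have key : ∀ a b : Fin n, u a b ≤ deg u a := by
    intro a b
    exact Finset.single_le_sum (f := fun c => u a c) (fun c _ => hu.nn a c) (Finset.mem_univ b)
  refine ⟨key i j, ?_⟩
  rw [hu.sym i j]
  exact key j i

end Pool.Agent.Lib.HyC
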