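import Pool.Agent.Lib.HyC.Bs
import Pool.Agent.Lib.HyC.Bary

/-!
# HyC, row UA: uniqueness, both of type A, the outer weights (assembled in UAA)

Here `y i = out C u i = out C v i` is given. PROOF IN WORDS. For a vector `w ∈ ℝ^m` (a vertex of the
simplices of `T`) put `a w = (1/2) * ∑ i j, [π i ≠ π j ∧ ind {π i, π j} = w] u i j` and `b w` in the
same way from `v`. `F, F'` are the two faces of `ATyp`. All outer pairs of positive weight of `u`
have `ind {π i, π j} ∈ F`, so `∑ w ∈ F, a w = (1/2) ∑ i, out C u i = (1/2) ∑ i, out C v i =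
∑ w ∈ F', b w`, and `∑ w ∈ F, a w • w` is the vector with the coordinates `∑ i with π i = p, out C u i`
(`ind {π i, π j} = e_(π i) + e_(π j)` as `π i ≠ π j`; by symmetry of `u` the two halves agree); the
same for `v`. So `bary` applies, and `a w = b w` for all `w` (outside `F` `a` vanishes). Now let
`u i j > 0`, `π i ≠ π j`. With `w = ind {π i, π j}`: by transversality the only pairs `(k, l)` with
`ind {π k, π l} = w` (that is `{π k, π l} = {π i, π j}`) and `u k l > 0` are `(i, j)` and `(j, i)`,
so `a w = u i j > 0`. So `b w > 0`, there are `k, l` with `π k = π i`, `π l = π j`, `v k l > 0`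
(symmetry). `out C u i > 0` so `out C v i > 0`, and some `v i z > 0` with `π z ≠ π i`, so by
transversality of `v` (`π i = π k`, `v i z > 0`, `v k l > 0`) `i = k`; in the same way `j = l`. So
`b w = v i j` by the same computation and `u i j = v i j`. By symmetry of the statement, if
`v i j > 0` then `u i j = v i j`; otherwise both are zero.
-/

set_option autoImplicit false

namespace Pool.Agent.Lib.HyC

open Pool.Agent.Lib.HyS Finset

variable {n m : ℕ}

/-- The outer weights. -/
private noncomputable def ow (C : Comp n m) (u : Fin n → Fin n → ℝ) (i j : Fin n) : ℝ :=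
  if C.π i ≠ C.π j then u i j else 0

open Classical in
/-- The weight on the vertex `w` which belongs to the outer weights. -/
private noncomputable def aw (C : Comp n m) (u : Fin n → Fin n → ℝ) (w : Fin m → ℝ) : ℝ :=
  (1 / 2) * ∑ i, ∑ j, if ind {C.π i, C.π j} = w then ow C u i j else 0

private theorem ow_nonneg (C : Comp n m) {u : Fin n → Fin n → ℝ} (hu : IsW u) (i j : Fin n) :
    0 ≤ ow C u i j := by
  unfold ow
  split_ifs
  · exact hu.nn i j
  · exact le_refl 0

private theorem ow_sym (C : Comp n m) {u : Fin n → Fin n → ℝ} (hu : IsW u) (i j : Fin n) :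
    ow C u i j = ow C u j i := by
  unfold ow
  by_cases h : C.π i = C.π j
  · rw [if_neg (by simp [h]), if_neg (by simp [h])]
  · rw [if_pos h, if_pos (fun h' => h h'.symm), hu.sym i j]

private theorem ow_sum (C : Comp n m) (u : Fin n → Fin n → ℝ) (i : Fin n) :
    ∑ j, ow C u i j = out C u i := by
  unfold out ow
  rw [Finset.sum_filter]
  refine Finset.sum_congr rfl fun j _ => ?_
  by_cases h : C.π i = C.π j
  · rw [if_neg (by simp [h]), if_neg (by simp [h])]
  · rw [if_pos h, if_pos (fun h' => h h'.symm)]

private theorem aw_nonneg (C : Comp n m) {u : Fin n → Fin n → ℝ} (hu : IsW u) (w : Fin m → ℝ) :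
    0 ≤ aw C u w := by
  unfold aw
  refine mul_nonneg (by norm_num) (Finset.sum_nonneg fun i _ => Finset.sum_nonneg fun j _ => ?_)
  split_ifs
  · exact ow_nonneg C hu i j
  · exact le_refl 0

private theorem ow_pos (C : Comp n m) {u : Fin n → Fin n → ℝ} (hu : IsW u) {i j : Fin n}
    (h : ow C u i j ≠ 0) : C.π i ≠ C.π j ∧ supp u i j := by
  unfold ow at h
  by_cases h' : C.π i = C.π j
  · rw [if_neg (by simp [h'])] at h
    exact absurd rfl h
  · rw [if_pos h'] at h
    exact ⟨h', lt_of_le_of_ne (hu.nn i j) (Ne.symm h)⟩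

private theorem sumF (C : Comp n m) {u : Fin n → Fin n → ℝ} (hu : IsW u)
    (F : Finset (Fin m → ℝ)) (hF : ∀ i j, supp u i j → C.π i ≠ C.π j → ind {C.π i, C.π j} ∈ F)
    (g : (Fin m → ℝ) → ℝ) :
    ∑ w ∈ F, aw C u w * g w = (1 / 2) * ∑ i, ∑ j, ow C u i j * g (ind {C.π i, C.π j}) := by
  classical
  have h1 : ∀ w ∈ F, aw C u w * g w = (1 / 2) * ∑ i, ∑ j,
      if ind {C.π i, C.π j} = w then ow C u i j * g (ind {C.π i, C.π j}) else 0 := by
    intro w _
    unfold aw
    rw [mul_assoc, Finset.sum_mul]
    congr 1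
    refine Finset.sum_congr rfl fun i _ => ?_
    rw [Finset.sum_mul]
    refine Finset.sum_congr rfl fun j _ => ?_
    by_cases h : ind {C.π i, C.π j} = w
    · rw [if_pos h, if_pos h, h]
    · rw [if_neg h, if_neg h, zero_mul]
  rw [Finset.sum_congr rfl h1, ← Finset.mul_sum, Finset.sum_comm]
  congr 1
  refine Finset.sum_congr rfl fun i _ => ?_
  rw [Finset.sum_comm]
  refine Finset.sum_congr rfl fun j _ => ?_
  rw [Finset.sum_ite_eq]
  by_cases h : ow C u i j = 0
  · simp [h]
  · obtain ⟨h2, h3⟩ := ow_pos C hu h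
    rw [if_pos (hF i j h3 h2)]

private theorem aw_out (C : Comp n m) {u : Fin n → Fin n → ℝ} (hu : IsW u)
    (F : Finset (Fin m → ℝ)) (hF : ∀ i j, supp u i j → C.π i ≠ C.π j → ind {C.π i, C.π j} ∈ F)
    (w : Fin m → ℝ) (hw : w ∉ F) : aw C u w = 0 := by
  unfold aw
  rw [Finset.sum_eq_zero, mul_zero]
  intro i _
  refine Finset.sum_eq_zero fun j _ => ?_
  by_cases h : ind {C.π i, C.π j} = w
  · rw [if_pos h]
    by_contra h'
    obtain ⟨h2, h3⟩ := ow_pos C hu h'
    exact hw (h ▸ hF i j h3 h2)
  · rw [if_neg h]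

private theorem sum_one (C : Comp n m) {u : Fin n → Fin n → ℝ} (hu : IsW u)
    (F : Finset (Fin m → ℝ)) (hF : ∀ i j, supp u i j → C.π i ≠ C.π j → ind {C.π i, C.π j} ∈ F) :
    ∑ w ∈ F, aw C u w = (1 / 2) * ∑ i, out C u i := by
  have h := sumF C hu F hF (fun _ => 1)
  simp only [mul_one] at h
  rw [h]
  congr 1
  exact Finset.sum_congr rfl fun i _ => ow_sum C u i

private theorem sum_pt (C : Comp n m) {u : Fin n → Fin n → ℝ} (hu : IsW u)
    (F : Finset (Fin m → ℝ)) (hF : ∀ i j, supp u i j → C.π i ≠ C.π j → ind {C.π i, C.π j} ∈ F)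
    (p : Fin m) :
    ∑ w ∈ F, aw C u w * w p = ∑ i, if C.π i = p then out C u i else 0 := by
  have h := sumF C hu F hF (fun w => w p)
  rw [h]
  have h1 : ∀ i j, ow C u i j * ind {C.π i, C.π j} p =
      (if C.π i = p then ow C u i j else 0) + (if C.π j = p then ow C u i j else 0) := by
    intro i j
    by_cases h0 : ow C u i j = 0
    · simp [h0]
    · obtain ⟨h2, _⟩ := ow_pos C hu h0
      unfold ind
      simp only [Finset.mem_insert, Finset.mem_singleton]
      by_cases h3 : C.π i = p
      · have h4 : C.π j ≠ p := fun h' => h2 (h3.trans h'.symm)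
        rw [if_pos (Or.inl h3.symm), if_pos h3, if_neg h4]
        ring
      · by_cases h4 : C.π j = p
        · rw [if_pos (Or.inr h4.symm), if_neg h3, if_pos h4]
          ring
        · rw [if_neg, if_neg h3, if_neg h4]
          · ring
          · rintro (h' | h')
            · exact h3 h'.symm
            · exact h4 h'.symm
  have h2 : ∑ i, ∑ j, ow C u i j * ind {C.π i, C.π j} p =
      (∑ i, if C.π i = p then out C u i else 0) + ∑ i, if C.π i = p then out C u i else 0 := by
    have h3 : ∑ i, ∑ j, ow C u i j * ind {C.π i, C.π j} p =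
        ∑ i, ∑ j, ((if C.π i = p then ow C u i j else 0) +
          (if C.π j = p then ow C u i j else 0)) :=
      Finset.sum_congr rfl fun i _ => Finset.sum_congr rfl fun j _ => h1 i j
    rw [h3]
    simp only [Finset.sum_add_distrib]
    congr 1
    · refine Finset.sum_congr rfl fun i _ => ?_
      by_cases h4 : C.π i = p
      · simp only [if_pos h4]
        exact ow_sum C u i
      · simp only [if_neg h4, Finset.sum_const_zero]
    · rw [Finset.sum_comm]
      refine Finset.sum_congr rfl fun i _ => ?_
      by_cases h4 : C.π i = p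
      · simp only [if_pos h4]
        rw [← ow_sum C u i]
        exact Finset.sum_congr rfl fun j _ => ow_sym C hu j i
      · simp only [if_neg h4, Finset.sum_const_zero]
  rw [h2]
  ring

private theorem ind_inj {I J : Finset (Fin m)} (h : ind I = ind J) : I = J := by
  ext x
  have h1 := congrFun h x
  unfold ind at h1
  by_cases h2 : x ∈ I
  · by_cases h3 : x ∈ J
    · simp [h2, h3]
    · rw [if_pos h2, if_neg h3] at h1
      norm_num at h1
  · by_cases h3 : x ∈ J
    · rw [if_neg h2, if_pos h3] at h1
      norm_num at h1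
    · simp [h2, h3]

private theorem pair_cases {a b c d : Fin m} (hab : a ≠ b)
    (h : ind ({a, b} : Finset (Fin m)) = ind {c, d}) : (a = c ∧ b = d) ∨ (a = d ∧ b = c) := by
  have h1 := ind_inj h
  have ha : a ∈ ({c, d} : Finset (Fin m)) := by rw [← h1]; simp
  have hb : b ∈ ({c, d} : Finset (Fin m)) := by rw [← h1]; simp
  simp only [Finset.mem_insert, Finset.mem_singleton] at ha hb
  rcases ha with ha | ha <;> rcases hb with hb | hb
  · exact absurd (ha.trans hb.symm) hab
  · exact Or.inl ⟨ha, hb⟩
  · exact Or.inr ⟨ha, hb⟩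
  · exact absurd (ha.trans hb.symm) hab

private theorem aw_eq (C : Comp n m) {u : Fin n → Fin n → ℝ} (hu : IsW u)
    (hT : Trv C (supp u)) (i j : Fin n) (hij : C.π i ≠ C.π j) (hp : supp u i j) :
    aw C u (ind {C.π i, C.π j}) = u i j := by
  classical
  have hne : i ≠ j := fun h => hij (h ▸ rfl)
  have hp' : supp u j i := by
    unfold supp at hp ⊢
    rw [hu.sym j i]
    exact hp
  have h1 : ∀ k l, (if ind {C.π k, C.π l} = ind {C.π i, C.π j} then ow C u k l else 0) =
      (if k = i then (if l = j then u i j else 0) else 0) +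
        (if k = j then (if l = i then u i j else 0) else 0) := by
    intro k l
    by_cases hk : k = i ∧ l = j
    · obtain ⟨rfl, rfl⟩ := hk
      rw [if_pos rfl, if_pos rfl, if_pos rfl, if_neg hne]
      unfold ow
      rw [if_pos hij]
      ring
    · by_cases hk' : k = j ∧ l = i
      · obtain ⟨rfl, rfl⟩ := hk'
        rw [if_pos (by rw [Finset.pair_comm]), if_neg (Ne.symm hne), if_pos rfl, if_pos rfl]
        unfold ow
        rw [if_pos (Ne.symm hij), hu.sym]
        ring
      · have hR : (if k = i then (if l = j then u i j else 0) else 0) +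
            (if k = j then (if l = i then u i j else 0) else 0) = 0 := by
          have e1 : (if k = i then (if l = j then u i j else 0) else 0) = 0 := by
            by_cases h2 : k = i
            · rw [if_pos h2, if_neg (fun h3 => hk ⟨h2, h3⟩)]
            · rw [if_neg h2]
          have e2 : (if k = j then (if l = i then u i j else 0) else 0) = 0 := by
            by_cases h2 : k = j
            · rw [if_pos h2, if_neg (fun h3 => hk' ⟨h2, h3⟩)]
            · rw [if_neg h2]
          rw [e1, e2, add_zero]
        rw [hR]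
        by_cases h3 : ind {C.π k, C.π l} = ind {C.π i, C.π j}
        · rw [if_pos h3]
          by_contra h4
          obtain ⟨h5, h6⟩ := ow_pos C hu h4
          have h6' : supp u l k := by
            unfold supp at h6 ⊢
            rw [hu.sym l k]
            exact h6
          rcases pair_cases h5 h3 with ⟨h7, h8⟩ | ⟨h7, h8⟩
          · exact hk ⟨hT k l i j h6 hp h5 hij h7, hT l k j i h6' hp' (Ne.symm h5)
              (Ne.symm hij) h8⟩
          · exact hk' ⟨hT k l j i h6 hp' h5 (Ne.symm hij) h7, hT l k i j h6' hp (Ne.symm h5)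
              hij h8⟩
        · rw [if_neg h3]
  unfold aw
  rw [Finset.sum_congr rfl fun k _ => Finset.sum_congr rfl fun l _ => h1 k l]
  simp only [Finset.sum_add_distrib]
  have e1 : ∀ a b : Fin n, ∑ k, ∑ l, (if k = a then (if l = b then u i j else 0) else 0) =
      u i j := by
    intro a b
    rw [Finset.sum_eq_single a]
    · rw [Finset.sum_eq_single b]
      · rw [if_pos rfl, if_pos rfl]
      · intro l _ hl
        rw [if_pos rfl, if_neg hl]
      · intro h; exact absurd (Finset.mem_univ b) h
    · intro k _ hk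
      refine Finset.sum_eq_zero fun l _ => ?_
      rw [if_neg hk]
    · intro h; exact absurd (Finset.mem_univ a) h
  rw [e1 i j, e1 j i]
  ring

private theorem key (C : Comp n m) {u v : Fin n → Fin n → ℝ} (hu : IsW u) (hv : IsW v)
    (hT : Trv C (supp u)) (hT' : Trv C (supp v)) (h : ∀ i, out C u i = out C v i)
    (haw : ∀ w, aw C u w = aw C v w) (i j : Fin n) (hij : C.π i ≠ C.π j) (hp : supp u i j) :
    u i j = v i j := by
  classical
  have hp' : supp u j i := by
    unfold supp at hp ⊢
    rw [hu.sym j i]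
    exact hp
  have h1 := aw_eq C hu hT i j hij hp
  have h2 : 0 < aw C v (ind {C.π i, C.π j}) := by
    rw [← haw, h1]
    exact hp
  -- some outer pair of `v` projects to the same pair
  have h3 : ∃ k l, C.π k = C.π i ∧ C.π l = C.π j ∧ supp v k l := by
    by_contra hcon
    push Not at hcon
    have h4 : aw C v (ind {C.π i, C.π j}) = 0 := by
      unfold aw
      rw [Finset.sum_eq_zero, mul_zero]
      intro k _
      refine Finset.sum_eq_zero fun l _ => ?_
      by_cases h5 : ind {C.π k, C.π l} = ind {C.π i, C.π j}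
      · rw [if_pos h5]
        by_contra h6
        obtain ⟨h7, h8⟩ := ow_pos C hv h6
        rcases pair_cases h7 h5 with ⟨h9, h10⟩ | ⟨h9, h10⟩
        · exact hcon k l h9 h10 h8
        · refine hcon l k h10 h9 ?_
          unfold supp at h8 ⊢
          rw [hv.sym l k]
          exact h8
      · rw [if_neg h5]
    rw [h4] at h2
    exact lt_irrefl _ h2
  obtain ⟨k, l, hk, hl, hkl⟩ := h3
  have hlk : supp v l k := by
    unfold supp at hkl ⊢
    rw [hv.sym l k]
    exact hkl
  have hkl' : C.π k ≠ C.π l := by rw [hk, hl]; exact hij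
  have hex : ∀ a b : Fin n, supp u a b → C.π a ≠ C.π b → ∃ z, C.π a ≠ C.π z ∧ supp v a z := by
    intro a b hab hne
    by_contra hcon
    push Not at hcon
    have h4 := out_zero C hv a hcon
    have h5 := le_out C hu a b (Ne.symm hne)
    rw [h a, h4] at h5
    exact absurd hab (not_lt.mpr h5)
  obtain ⟨z, hz, hz'⟩ := hex i j hp hij
  obtain ⟨y, hy, hy'⟩ := hex j i hp' (Ne.symm hij)
  have hik : i = k := hT' i z k l hz' hkl hz hkl' hk.symm
  have hjl : j = l := hT' j y l k hy' hlk hy (Ne.symm hkl') hl.symm
  subst hik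
  subst hjl
  have h5 := aw_eq C hv hT' i j hij hkl
  rw [← h1, haw, h5]

theorem uniq_outer (C : Comp n m) (T : LatticeTriangulation 2 m) {u v : Fin n → Fin n → ℝ}
    (hu : IsW u) (hv : IsW v) (hA : ATyp C T (supp u)) (hA' : ATyp C T (supp v))
    (h : ∀ i, out C u i = out C v i) (i j : Fin n) (hij : C.π i ≠ C.π j) : u i j = v i j := by
  obtain ⟨hT, F, hF, hFs⟩ := hA
  obtain ⟨hT', F', hF', hFs'⟩ := hA'
  have hW : ∑ w ∈ F, aw C u w = ∑ w ∈ F', aw C v w := by
    rw [sum_one C hu F hFs, sum_one C hv F' hFs']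
    congr 1
    exact Finset.sum_congr rfl fun i _ => h i
  have hP : ∑ w ∈ F, aw C u w • w = ∑ w ∈ F', aw C v w • w := by
    funext p
    simp only [Finset.sum_apply, Pi.smul_apply, smul_eq_mul]
    rw [sum_pt C hu F hFs, sum_pt C hv F' hFs']
    exact Finset.sum_congr rfl fun i _ => by rw [h i]
  obtain ⟨b1, b2, b3⟩ := bary T F F' hF hF' (aw C u) (aw C v) (fun w _ => aw_nonneg C hu w)
    (fun w _ => aw_nonneg C hv w) hW hP
  have haw : ∀ w, aw C u w = aw C v w := by
    intro w
    by_cases h1 : w ∈ F
    · by_cases h2 : w ∈ F'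
      · exact b1 w h1 h2
      · rw [b2 w h1 h2, aw_out C hv F' hFs' w h2]
    · by_cases h2 : w ∈ F'
      · rw [b3 w h2 h1, aw_out C hu F hFs w h1]
      · rw [aw_out C hv F' hFs' w h2, aw_out C hu F hFs w h1]
  by_cases h1 : supp u i j
  · exact key C hu hv hT hT' h haw i j hij h1
  · by_cases h2 : supp v i j
    · exact (key C hv hu hT' hT (fun i => (h i).symm) (fun w => (haw w).symm) i j hij h2).symm
    · unfold supp at h1 h2
      have e1 := hu.nn i j
      have e2 := hv.nn i j
      linarith

end Pool.Agent.Lib.HyC
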