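import Pool.Agent.Lib.HyC.UA
import Pool.Agent.Lib.HyC.Pm

/-!
# HyC, row UAA: uniqueness, both of type A

PROOF IN WORDS. Let `i ≠ j` be in one class. By `pair_min` `u i j = min (deg u i) (deg u j) = v i j`. So `out C u i = out C v i` for all `i` (if `i` is alone in its class `inn = 0`, by
`inn_single`; otherwise there is `j ≠ i` in its class). Now `uniq_outer` gives the outer weights, and
`u i i = 0 = v i i`.
-/

set_option autoImplicit false

namespace Pool.Agent.Lib.HyC

open Pool.Agent.Lib.HyS Finset

variable {n m : ℕ}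

theorem uniq_AA (C : Comp n m) (T : LatticeTriangulation 2 m) {u v : Fin n → Fin n → ℝ}
    (hu : IsW u) (hv : IsW v) (hA : ATyp C T (supp u)) (hA' : ATyp C T (supp v))
    (h : ∀ i, deg u i = deg v i) (i j : Fin n) : u i j = v i j := by
  have h1 : ∀ a b : Fin n, a ≠ b → C.π a = C.π b → u a b = v a b := by
    intro a b hab hp
    rw [pair_min C hu hA.1 hab hp, pair_min C hv hA'.1 hab hp, h a, h b]
  have h2 : ∀ a : Fin n, inn C u a = inn C v a := by
    intro a
    by_cases hex : ∃ b, b ≠ a ∧ C.π b = C.π a
    · obtain ⟨b, hb, hp⟩ := hex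
      rw [inn_pair C hu hb.symm hp.symm, inn_pair C hv hb.symm hp.symm, h1 a b hb.symm hp.symm]
    · have hs : ∀ b, C.π b = C.π a → b = a := by
        intro b hb
        by_contra hne
        exact hex ⟨b, hne, hb⟩
      rw [inn_single C hu hs, inn_single C hv hs]
  have h3 : ∀ a : Fin n, out C u a = out C v a := by
    intro a
    have e1 := deg_split C u a
    have e2 := deg_split C v a
    have e3 := h a
    have e4 := h2 a
    linarith
  by_cases hij : C.π i = C.π j
  · by_cases he : i = j
    · subst he
      rw [hu.dg, hv.dg]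
    · exact h1 i j he hij
  · exact uniq_outer C T hu hv hA hA' h3 i j hij

end Pool.Agent.Lib.HyC
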